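import Mathlib

namespace Pool.Agent.H.MP_0c10a3_al
open FreeGroup (of lift lift_apply_of)

variable {X : Type}

def sub (S : Set X) : Subgroup (FreeGroup X) := Subgroup.closure (FreeGroup.of '' S)

lemma of_mem {S : Set X} {x : X} (h : x ∈ S) : of x ∈ sub S := Subgroup.subset_closure ⟨x, h, rfl⟩

lemma sub_le {S : Set X} {K : Subgroup (FreeGroup X)} (h : ∀ x ∈ S, of x ∈ K) : sub S ≤ K := by
  rw [sub, Subgroup.closure_le]
  rintro _ ⟨x, hx, rfl⟩
  exact h x hx

lemma sub_mono {S T : Set X} (h : S ⊆ T) : sub S ≤ sub T := sub_le fun _ hx => of_mem (h hx)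

lemma map_mem {G : Type} [Group G] (f : FreeGroup X →* G) {S : Set X} {K : Subgroup G}
    (h : ∀ x ∈ S, f (of x) ∈ K) {w : FreeGroup X} (hw : w ∈ sub S) : f w ∈ K :=
  sub_le (K := K.comap f) h hw

lemma eq_on {G : Type} [Group G] (f g : FreeGroup X →* G) {S : Set X}
    (h : ∀ x ∈ S, f (of x) = g (of x)) {w : FreeGroup X} (hw : w ∈ sub S) : f w = g w :=
  sub_le (K := f.eqLocus g) h hw

lemma mem_univ' (w : FreeGroup X) : w ∈ sub (Set.univ : Set X) := by
  have : sub (Set.univ : Set X) = ⊤ := by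
    rw [sub, Set.image_univ, FreeGroup.closure_range_of]
  rw [this]; trivial

lemma exists_fin {S : Set X} {w : FreeGroup X} (hw : w ∈ sub S) :
    ∃ T : Set X, T.Finite ∧ T ⊆ S ∧ w ∈ sub T := by
  induction hw using Subgroup.closure_induction with
  | mem x hx =>
    obtain ⟨y, hy, rfl⟩ := hx
    exact ⟨{y}, Set.finite_singleton _, by simpa using hy, of_mem rfl⟩
  | one => exact ⟨∅, Set.finite_empty, Set.empty_subset _, one_mem _⟩
  | mul x y _ _ hx hy =>
    obtain ⟨T, h1, h2, h3⟩ := hx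
    obtain ⟨T', h1', h2', h3'⟩ := hy
    exact ⟨T ∪ T', h1.union h1', Set.union_subset h2 h2',
      mul_mem (sub_mono Set.subset_union_left h3) (sub_mono Set.subset_union_right h3')⟩
  | inv x _ hx =>
    obtain ⟨T, h1, h2, h3⟩ := hx
    exact ⟨T, h1, h2, inv_mem h3⟩

lemma low_cases {P : Type} [LinearOrder P] (lev : X → P) (Q : P → Prop) {w : FreeGroup X}
    (hw : w ∈ sub {x | Q (lev x)}) : w = 1 ∨ ∃ q, Q q ∧ w ∈ sub {x | lev x ≤ q} := by
  induction hw using Subgroup.closure_induction with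
  | mem x hx =>
    obtain ⟨y, hy, rfl⟩ := hx
    exact Or.inr ⟨lev y, hy, of_mem (le_refl (lev y))⟩
  | one => exact Or.inl rfl
  | mul x y _ _ hx hy =>
    rcases hx with rfl | ⟨q, hq, hx⟩
    · simpa using hy
    rcases hy with rfl | ⟨q', hq', hy⟩
    · exact Or.inr ⟨q, hq, by simpa using hx⟩
    rcases le_total q q' with h | h
    · exact Or.inr ⟨q', hq', mul_mem (sub_mono (fun z (hz : lev z ≤ q) => hz.trans h) hx) hy⟩
    · exact Or.inr ⟨q, hq, mul_mem hx (sub_mono (fun z (hz : lev z ≤ q') => hz.trans h) hy)⟩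
  | inv x _ hx =>
    rcases hx with rfl | ⟨q, hq, hx⟩
    · simp
    · exact Or.inr ⟨q, hq, inv_mem hx⟩

abbrev Au (X : Type) := MulAut (FreeGroup X)

def Maps (a : Au X) (K K' : Subgroup (FreeGroup X)) : Prop := ∀ w, a w ∈ K' ↔ w ∈ K

lemma Maps.inv {a : Au X} {K K' : Subgroup (FreeGroup X)} (h : Maps a K K') : Maps a⁻¹ K' K :=
  fun w => by rw [← h]; simp

lemma Maps.mul {a b : Au X} {K K' K'' : Subgroup (FreeGroup X)} (h : Maps a K' K'')
    (h' : Maps b K K') : Maps (a * b) K K'' :=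
  fun w => by rw [MulAut.mul_apply, h, h']

lemma Maps.one (K : Subgroup (FreeGroup X)) : Maps 1 K K := fun _ => Iff.rfl

lemma Maps.of_gen {a : Au X} {S T : Set X} (h1 : ∀ x ∈ S, a (of x) ∈ sub T)
    (h2 : ∀ x ∈ T, a⁻¹ (of x) ∈ sub S) : Maps a (sub S) (sub T) := by
  intro w
  constructor
  · intro h
    have := map_mem (a⁻¹).toMonoidHom h2 h
    simpa using this
  · intro h
    exact map_mem a.toMonoidHom h1 h

abbrev Pres (a : Au X) (S : Set X) : Prop := Maps a (sub S) (sub S)

lemma inv_fix {a : Au X} {w : FreeGroup X} (h : a w = w) : a⁻¹ w = w := by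
  conv_lhs => rw [← h]
  simp

theorem tri {P : Type} [LinearOrder P] [WellFoundedLT P] (lev : X → P) (a : P → Au X)
    (T U : P → Subgroup (FreeGroup X))
    (hU1 : ∀ p q, q < p → T q ≤ U p)
    (hU2 : ∀ p (K : Subgroup (FreeGroup X)), (∀ q < p, T q ≤ K) → U p ≤ K)
    (hlow : ∀ p, Maps (a p) (sub {x | lev x < p}) (U p))
    (hup : ∀ p, Maps (a p) (sub {x | lev x ≤ p}) (T p))
    (htop : ∀ x, ∃ p, of x ∈ T p) :
    ∃ ψ : Au X, (∀ x, ψ (of x) = a (lev x) (of x)) ∧ ∀ p, Maps ψ (sub {x | lev x ≤ p}) (T p) := by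
  classical
  let ψ : FreeGroup X →* FreeGroup X := lift fun x => a (lev x) (of x)
  have hψ : ∀ x, ψ (of x) = a (lev x) (of x) := fun x => lift_apply_of
  have hUT : ∀ p, U p ≤ T p := fun p w hw => by
    have h1 := ((hlow p).inv w).2 hw
    have h2 := (hup p _).2 (sub_mono (fun z (hz : lev z < p) => hz.le) h1)
    simpa using h2
  have hT : ∀ x, ψ (of x) ∈ T (lev x) := fun x => by
    rw [hψ]; exact (hup _ _).2 (of_mem (le_refl (lev x)))
  have c1 : ∀ p w, w ∈ sub {x | lev x ≤ p} → ψ w ∈ T p := fun p w hw => by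
    refine map_mem ψ (fun x (hx : lev x ≤ p) => ?_) hw
    rcases hx.lt_or_eq with h | h
    · exact hUT p (hU1 _ _ h (hT x))
    · exact h ▸ hT x
  have c2 : ∀ p, T p ≤ (sub {x | lev x ≤ p}).map ψ := by
    intro p
    induction p using WellFoundedLT.induction with
    | ind p ih =>
    intro w hw
    have h1 := ((hup p).inv w).2 hw
    have h2 := map_mem (a p).toMonoidHom (K := (sub {x | lev x ≤ p}).map ψ) (S := {x | lev x ≤ p})
      (fun x (hx : lev x ≤ p) => by
        rcases hx.lt_or_eq with h | h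
        · refine hU2 p _ (fun q hq => (ih q hq).trans (Subgroup.map_mono
            (sub_mono fun z (hz : lev z ≤ q) => hz.trans hq.le))) ((hlow p _).2 (of_mem h))
        · exact ⟨of x, of_mem hx, by rw [hψ, h]; rfl⟩) h1
    simpa using h2
  have c2' : ∀ p, U p ≤ (sub {x | lev x < p}).map ψ := fun p =>
    hU2 p _ fun q hq => (c2 q).trans (Subgroup.map_mono
      (sub_mono fun z (hz : lev z ≤ q) => hz.trans_lt hq))
  have c3 : ∀ p, ∀ u ∈ sub {x | lev x ≤ p}, ψ u = 1 → u = 1 := by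
    intro p
    induction p using WellFoundedLT.induction with
    | ind p ih =>
    have hl : ∀ u ∈ sub {x | lev x < p}, ψ u = 1 → u = 1 := fun u hu h => by
      rcases low_cases lev (· < p) hu with h1 | ⟨q, hq, h1⟩
      · exact h1
      · exact ih q hq u h1 h
    have hex : ∀ y, ∃ u, lev y < p → u ∈ sub {x | lev x < p} ∧ ψ u = a p (of y) := fun y => by
      by_cases hy : lev y < p
      · obtain ⟨u, hu, h⟩ := c2' p ((hlow p _).2 (of_mem hy))
        exact ⟨u, fun _ => ⟨hu, h⟩⟩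
      · exact ⟨1, fun h => absurd h hy⟩
    choose u hu using hex
    let η : FreeGroup X →* FreeGroup X :=
      lift fun x => if lev x < p then (a p)⁻¹ (ψ (of x)) else of x
    let η' : FreeGroup X →* FreeGroup X := lift fun x => if lev x < p then u x else of x
    have e1 : ∀ w ∈ sub {x | lev x < p}, η' w ∈ sub {x | lev x < p} := fun w hw =>
      map_mem η' (fun x (hx : lev x < p) => by simp only [η', lift_apply_of, hx, if_true]; exact (hu x hx).1) hw
    have e2 : ∀ w ∈ sub {x | lev x < p}, ψ (η' w) = a p w := fun w hw =>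
      eq_on (ψ.comp η') (a p).toMonoidHom (fun x (hx : lev x < p) => by
        simp only [η', MonoidHom.comp_apply, lift_apply_of, hx, if_true]; exact (hu x hx).2) hw
    intro w hw h
    have e3 : ψ w = a p (η w) :=
      eq_on ψ ((a p).toMonoidHom.comp η) (fun x (hx : lev x ≤ p) => by
        simp only [η, MonoidHom.comp_apply, lift_apply_of]
        split_ifs with h1
        · simp
        · rw [hψ, le_antisymm hx (not_lt.1 h1)]; rfl) hw
    have e4 : η' (η w) = w :=
      eq_on (η'.comp η) (MonoidHom.id _) (fun x (hx : lev x ≤ p) => by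
        simp only [η, MonoidHom.comp_apply, lift_apply_of, MonoidHom.id_apply]
        split_ifs with h1
        · have hz : (a p)⁻¹ (ψ (of x)) ∈ sub {x | lev x < p} :=
            ((hlow p).inv _).2 (hU1 _ _ h1 (hT x))
          have := hl (η' ((a p)⁻¹ (ψ (of x))) * (of x)⁻¹) (mul_mem (e1 _ hz) (inv_mem (of_mem h1)))
            (by rw [map_mul, e2 _ hz]; simp)
          exact mul_inv_eq_one.1 this
        · simp [η', h1]) hw
    rw [h] at e3
    have : η w = 1 := (a p).injective (by rw [← e3, map_one])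
    rw [← e4, this, map_one]
  have hinj : Function.Injective ψ := by
    rw [injective_iff_map_eq_one]
    intro w h
    rcases low_cases lev (fun _ => True) (w := w) (mem_univ' w) with h1 | ⟨q, -, h1⟩
    · exact h1
    · exact c3 q w h1 h
  have hsurj : Function.Surjective ψ := fun w => by
    have : w ∈ ψ.range := sub_le (S := Set.univ) (K := ψ.range) (fun x _ => by
      obtain ⟨p, hp⟩ := htop x
      obtain ⟨u, -, hu⟩ := c2 p hp
      exact ⟨u, hu⟩) (mem_univ' w)
    exact this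
  refine ⟨MulEquiv.ofBijective ψ ⟨hinj, hsurj⟩, hψ, fun p w => ⟨fun h => ?_, c1 p w⟩⟩
  obtain ⟨u, hu, h'⟩ := c2 p h
  exact hinj h' ▸ hu

theorem tri_pres {P : Type} [LinearOrder P] [WellFoundedLT P] (lev : X → P) (a : P → Au X)
    (hlow : ∀ p, Pres (a p) {x | lev x < p}) (hup : ∀ p, Pres (a p) {x | lev x ≤ p}) :
    ∃ ψ : Au X, (∀ x, ψ (of x) = a (lev x) (of x)) ∧ ∀ p, Pres ψ {x | lev x ≤ p} :=
  tri lev a (fun p => sub {x | lev x ≤ p}) (fun p => sub {x | lev x < p})
    (fun p q h => sub_mono fun z (hz : lev z ≤ q) => hz.trans_lt h)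
    (fun p K h => sub_le fun x hx => h _ hx (of_mem (le_refl (lev x)))) hlow hup
    (fun x => ⟨lev x, of_mem (le_refl (lev x))⟩)

lemma pres_of_up {P : Type} [Preorder P] (lev : X → P) {ψ : Au X}
    (h : ∀ p, Pres ψ {x | lev x ≤ p}) {S : Set X} (hS : ∀ x ∈ S, ∀ y, lev y ≤ lev x → y ∈ S) :
    Pres ψ S :=
  Maps.of_gen (fun x hx => sub_mono (fun y hy => hS x hx y hy)
      ((h (lev x) _).2 (of_mem (le_refl (lev x)))))
    (fun x hx => sub_mono (fun y hy => hS x hx y hy)
      (((h (lev x)).inv _).2 (of_mem (le_refl (lev x)))))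

theorem split {P : Type} [LinearOrder P] [WellFoundedLT P] (lev : X → P) (A : Set P) (φ : Au X)
    (hlow : ∀ p ∈ A, Pres φ {x | lev x < p}) (hup : ∀ p ∈ A, Pres φ {x | lev x ≤ p}) :
    ∃ ψ : Au X, (∀ x, lev x ∈ A → ψ (of x) = φ (of x)) ∧ (∀ x, lev x ∉ A → ψ (of x) = of x) ∧
      ∀ p, Pres ψ {x | lev x ≤ p} := by
  classical
  obtain ⟨ψ, h1, h2⟩ := tri_pres lev (fun p => if p ∈ A then φ else 1)
    (fun p => by
      by_cases hp : p ∈ A
      · simpa [hp] using hlow p hp
      · simpa [hp] using Maps.one _)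
    (fun p => by
      by_cases hp : p ∈ A
      · simpa [hp] using hup p hp
      · simpa [hp] using Maps.one _)
  exact ⟨ψ, fun x hx => by simp [h1, hx], fun x hx => by simp [h1, hx], h2⟩

theorem rel (S B : Set X) (g : Au X) (h1 : Pres g S) (h2 : Pres g (S ∪ B)) (hd : ∀ x ∈ B, x ∉ S) :
    ∃ r : Au X, (∀ x ∈ B, r (of x) = g (of x)) ∧ (∀ x ∉ B, r (of x) = of x) ∧ Pres r (S ∪ B) := by
  classical
  let lev : X → ℕ := fun x => if x ∈ S then 0 else if x ∈ B then 1 else 2
  have e1 : {x | lev x < 1} = S := by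
    ext x; simp only [lev, Set.mem_ofPred_eq]; split_ifs <;> simp [*]
  have e2 : {x | lev x ≤ 1} = S ∪ B := by
    ext x; simp only [lev, Set.mem_ofPred_eq, Set.mem_union]; split_ifs <;> simp [*]
  have e3 : ∀ x, lev x ∈ ({1} : Set ℕ) ↔ x ∈ B := by
    intro x; simp only [lev, Set.mem_singleton_iff]
    split_ifs with a b
    · simpa using fun h => hd x h a
    · simp [b]
    · simp [b]
  obtain ⟨r, a1, a2, a3⟩ := split lev {1} g (by rintro _ rfl; rwa [e1]) (by rintro _ rfl; rwa [e2])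
  exact ⟨r, fun x hx => a1 x ((e3 x).2 hx), fun x hx => a2 x (fun h => hx ((e3 x).1 h)),
    e2 ▸ a3 1⟩

lemma tri_rec {Y J β : Type} [Nonempty β] [LT J] [WellFoundedLT J] (ν : Y → J)
    (G : Y → (Y → β) → β)
    (hG : ∀ x f g, (∀ y, ν y < ν x → f y = g y) → G x f = G x g) :
    ∃ f : Y → β, ∀ x, f x = G x f := by
  classical
  have wf : WellFounded (InvImage (· < ·) ν) := InvImage.wf ν wellFounded_lt
  let d : β := Classical.arbitrary β
  let f : Y → β := wf.fix fun x ih => G x fun y => if h : ν y < ν x then ih y h else d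
  refine ⟨f, fun x => ?_⟩
  have : f x = G x fun y => if h : ν y < ν x then f y else d := wf.fix_eq _ x
  rw [this]
  exact hG _ _ _ fun y hy => by simp [hy]

def permAut (p : Equiv.Perm X) : Au X := FreeGroup.freeGroupCongr p

@[simp] lemma permAut_of (p : Equiv.Perm X) (x : X) : permAut p (of x) = of (p x) := rfl

lemma aut_ext {a b : Au X} (h : ∀ x, a (of x) = b (of x)) : a = b :=
  MulEquiv.toMonoidHom_injective (FreeGroup.ext_hom _ _ h)

def permHom : Equiv.Perm X →* Au X :=
  MonoidHom.mk' permAut fun p q => aut_ext fun x => rfl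

@[simp] lemma permHom_of (p : Equiv.Perm X) (x : X) : permHom p (of x) = of (p x) := rfl

end Pool.Agent.H.MP_0c10a3_al
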