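import Mathlib
import Pool.Agent.H.MP_0c10a3_al.Tri

namespace Pool.Agent.H.MP_0c10a3_al
open FreeGroup (of lift lift_apply_of)

structure Dat (Λ Φ I : Type) [Group Λ] [Group Φ] [MulAction Λ I] where
  ι : Φ →* Λ
  i0 : I
  lam : I → Λ
  coc : Λ → I → Φ
  inj : Function.Injective ι
  lam0 : lam i0 = 1
  lam_smul : ∀ i, lam i • i0 = i
  hc : ∀ l i, l * lam i = lam (l • i) * ι (coc l i)
  fix : ∀ g, ι g • i0 = i0
  free : ∀ g i, i ≠ i0 → lam (ι g • i) = ι g * lam i

variable {X Y J Λ Φ I : Type} [Group Λ] [Group Φ] [MulAction Λ I]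

lemma Dat.coc_one (D : Dat Λ Φ I) (i : I) : D.coc 1 i = 1 := by
  have := D.hc 1 i
  rw [one_smul, one_mul] at this
  exact D.inj (by rw [map_one]; exact (mul_eq_left.1 this.symm))

lemma Dat.coc_mul (D : Dat Λ Φ I) (l l' : Λ) (i : I) :
    D.coc (l * l') i = D.coc l (l' • i) * D.coc l' i := by
  have h := D.hc (l * l') i
  rw [mul_assoc, D.hc l' i, ← mul_assoc, D.hc l, mul_smul, mul_assoc] at h
  exact D.inj (by rw [map_mul]; exact (mul_left_cancel h).symm)

lemma Dat.coc_i0 (D : Dat Λ Φ I) (g : Φ) : D.coc (D.ι g) D.i0 = g := by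
  have h := D.hc (D.ι g) D.i0
  rw [D.fix, D.lam0, mul_one, one_mul] at h
  exact (D.inj h).symm

lemma Dat.coc_ne (D : Dat Λ Φ I) (g : Φ) {i : I} (hi : i ≠ D.i0) : D.coc (D.ι g) i = 1 := by
  have h := D.hc (D.ι g) i
  rw [D.free g i hi] at h
  exact D.inj (by rw [map_one]; exact (mul_eq_left.1 h.symm))

def Lo [LT J] (e : Y × I ≃ X) (ν : Y → J) (j : J) : Set X := {x | ν (e.symm x).1 < j}

def Hi [LT J] (e : Y × I ≃ X) (ν : Y → J) (i : I) (j : J) : Set X :=
  {x | ν (e.symm x).1 < j ∨ (ν (e.symm x).1 = j ∧ (e.symm x).2 = i)}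

theorem ext [LinearOrder J] [WellFoundedLT J] (D : Dat Λ Φ I) (e : Y × I ≃ X) (ν : Y → J)
    (τ : Φ →* Au X) (hL : ∀ g j, Pres (τ g) (Lo e ν j)) (hH : ∀ g j, Pres (τ g) (Hi e ν D.i0 j))
    (hr : ∀ g y i, i ≠ D.i0 → τ g (of (e (y, i))) = of (e (y, D.ι g • i))) :
    ∃ σ : Λ →* Au X, (∀ g, σ (D.ι g) = τ g) ∧ (∀ l j, Pres (σ l) (Lo e ν j)) ∧
      ∀ y i, σ (D.lam i) (of (e (y, D.i0))) = of (e (y, i)) := by
  classical
  let μ : X → J := fun x => ν (e.symm x).1
  let Θ0 : (X → Λ → FreeGroup X) → J → I → FreeGroup X →* FreeGroup X := fun f j i =>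
    lift fun z => if μ z < j then f z (D.lam i) else of (e ((e.symm z).1, i))
  obtain ⟨f, hf⟩ := tri_rec μ (fun x f l => Θ0 f (μ x) (l • (e.symm x).2)
      (τ (D.coc l (e.symm x).2) (of (e ((e.symm x).1, D.i0)))))
    (fun x f g h => by
      funext l
      have : ∀ i, Θ0 f (μ x) i = Θ0 g (μ x) i := fun i => by
        simp only [Θ0]
        congr 1
        funext z
        split_ifs with hz
        · rw [h z hz]
        · rfl
      simp only [this])
  let s : Λ → FreeGroup X →* FreeGroup X := fun l => lift fun z => f z l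
  let Θ := Θ0 f
  have hs : ∀ l y i, s l (of (e (y, i))) = Θ (ν y) (l • i) (τ (D.coc l i) (of (e (y, D.i0)))) := by
    intro l y i
    simp only [s, lift_apply_of]
    rw [hf]; simp [μ, Θ]
  have hΘ1 : ∀ j i z, μ z < j → Θ j i (of z) = s (D.lam i) (of z) := fun j i z hz => by
    simp [Θ, Θ0, s, hz]
  have hΘ1' : ∀ j i w, w ∈ sub (Lo e ν j) → Θ j i w = s (D.lam i) w := fun j i w hw =>
    eq_on _ _ (fun z hz => hΘ1 j i z hz) hw
  have hΘ2 : ∀ y i i', Θ (ν y) i (of (e (y, i'))) = of (e (y, i)) := fun y i i' => by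
    simp [Θ, Θ0, μ]
  have hin : ∀ g y, τ g (of (e (y, D.i0))) ∈ sub (Hi e ν D.i0 (ν y)) := fun g y =>
    (hH g _ _).2 (of_mem (Or.inr (by simp)))
  have hgen : ∀ {j z}, z ∈ Hi e ν D.i0 j → μ z < j ∨ ∃ y, ν y = j ∧ z = e (y, D.i0) := by
    rintro j z (h | ⟨h1, h2⟩)
    · exact Or.inl h
    · exact Or.inr ⟨_, h1, by rw [← h2]; simp⟩
  have hA : ∀ j x, μ x = j → ∀ l, s l (of x) ∈ sub {z | μ z ≤ j} := by
    intro j
    induction j using WellFoundedLT.induction with
    | ind j ih =>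
    intro x hx l
    obtain ⟨⟨y, i⟩, rfl⟩ := e.surjective x
    have hy : ν y = j := by simpa [μ] using hx
    rw [hs]
    refine map_mem _ (fun z hz => ?_) (hin _ y)
    rcases hgen hz with h | ⟨y', h1, rfl⟩
    · rw [hΘ1 _ _ _ h]
      rw [hy] at h
      exact sub_mono (fun w (hw : μ w ≤ μ z) => hw.trans h.le) (ih _ h z rfl _)
    · rw [← h1, hΘ2]
      exact of_mem (by simp [μ, h1, hy])
  have hA' : ∀ l j w, w ∈ sub (Lo e ν j) → s l w ∈ sub (Lo e ν j) := fun l j w hw =>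
    map_mem _ (fun z (hz : μ z < j) =>
      sub_mono (fun w (hw : μ w ≤ μ z) => hw.trans_lt hz) (hA _ z rfl l)) hw
  have hB : ∀ x, s 1 (of x) = of x := fun x => by
    obtain ⟨⟨y, i⟩, rfl⟩ := e.surjective x
    rw [hs, D.coc_one, map_one, one_smul, MulAut.one_apply, hΘ2]
  have hC : ∀ j x, μ x = j → (∀ l l', s l (s l' (of x)) = s (l * l') (of x)) ∧
      ∀ g, s (D.ι g) (of x) = τ g (of x) := by
    intro j
    induction j using WellFoundedLT.induction with
    | ind j ih =>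
    intro x hx
    obtain ⟨⟨y, i⟩, rfl⟩ := e.surjective x
    have hy : ν y = j := by simpa [μ] using hx
    have i1 : ∀ l l' z, μ z < j → s l (s l' (of z)) = s (l * l') (of z) :=
      fun l l' z hz => (ih _ hz z rfl).1 l l'
    have i2 : ∀ g z, μ z < j → s (D.ι g) (of z) = τ g (of z) :=
      fun g z hz => (ih _ hz z rfl).2 g
    have cl : ∀ l i' w, w ∈ sub (Hi e ν D.i0 j) →
        s l (Θ j i' w) = Θ j (l • i') (τ (D.coc l i') w) := fun l i' w hw =>
      eq_on ((s l).comp (Θ j i')) ((Θ j (l • i')).comp (τ (D.coc l i')).toMonoidHom)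
        (fun z hz => by
          simp only [MonoidHom.comp_apply, MulEquiv.coe_toMonoidHom]
          rcases hgen hz with h | ⟨y', h1, rfl⟩
          · rw [hΘ1 _ _ _ h, i1 _ _ _ h, D.hc, ← i1 _ _ _ h, i2 _ _ h,
              hΘ1' _ _ _ ((hL _ j _).2 (of_mem h))]
          · rw [← h1, hΘ2, hs]) hw
    constructor
    · intro l l'
      rw [hs l', hs, hy, cl _ _ _ (hy ▸ hin _ y), mul_smul, D.coc_mul, map_mul, MulAut.mul_apply]
    · intro g
      rw [hs]
      by_cases hi : i = D.i0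
      · rw [hi, D.coc_i0, D.fix]
        refine eq_on _ (MonoidHom.id _) (fun z hz => ?_) (hin g y)
        rcases hgen hz with h | ⟨y', h1, rfl⟩
        · rw [hΘ1 _ _ _ h, D.lam0, hB]; rfl
        · rw [← h1, hΘ2]; rfl
      · rw [D.coc_ne g hi, map_one, MulAut.one_apply, hΘ2, hr g y i hi]
  have hmul : ∀ l l', (s l).comp (s l') = s (l * l') := fun l l' =>
    FreeGroup.ext_hom _ _ fun x => (hC _ x rfl).1 l l'
  have hone : s 1 = MonoidHom.id _ := FreeGroup.ext_hom _ _ hB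
  let σ : Λ →* Au X := MonoidHom.mk' (fun l => MonoidHom.toMulEquiv (s l) (s l⁻¹)
      (by rw [hmul, inv_mul_cancel, hone]) (by rw [hmul, mul_inv_cancel, hone]))
    (fun l l' => aut_ext fun x => ((hC _ x rfl).1 l l').symm)
  refine ⟨σ, fun g => aut_ext fun x => (hC _ x rfl).2 g, fun l j =>
    Maps.of_gen (fun x hx => hA' l j _ (of_mem hx)) (fun x hx => hA' l⁻¹ j _ (of_mem hx)),
    fun y i => ?_⟩
  change s (D.lam i) (of (e (y, D.i0))) = _
  have h := D.hc (D.lam i) D.i0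
  rw [D.lam_smul, D.lam0, mul_one] at h
  have : D.coc (D.lam i) D.i0 = 1 := D.inj (by rw [map_one]; exact (mul_eq_left.1 h.symm))
  rw [hs, this, D.lam_smul, map_one, MulAut.one_apply, hΘ2]

lemma orb {G I : Type} [Group G] (ρ : G →* Equiv.Perm I) :
    ∃ (o : I → I) (n : I → G), (∀ i, ρ (n i) (o i) = i) ∧ ∀ g i, o (ρ g i) = o i := by
  let r : Setoid I :=
    ⟨fun i j => ∃ g, ρ g i = j, fun i => ⟨1, by simp⟩,
      fun ⟨g, h⟩ => ⟨g⁻¹, by rw [← h]; simp⟩,
      fun ⟨g, h⟩ ⟨g', h'⟩ => ⟨g' * g, by rw [map_mul, Equiv.Perm.mul_apply, h, h']⟩⟩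
  have h : ∀ i, ∃ g, ρ g (Quotient.mk r i).out = i := fun i => Quotient.mk_out (s := r) i
  choose n hn using h
  refine ⟨fun i => (Quotient.mk r i).out, n, hn, fun g i => ?_⟩
  have : Quotient.mk r (ρ g i) = Quotient.mk r i := (Quotient.sound (s := r) (⟨g, rfl⟩ : ∃ g', ρ g' i = ρ g i)).symm
  simp only [this]

lemma zorb {I : Type} (v : Equiv.Perm I) (hv : ∀ (n : ℤ) i, (v ^ n) i = i → n = 0) :
    ∃ (o : I → I) (n : I → ℤ), (∀ i, (v ^ n i) (o i) = i) ∧
      ∀ (m : ℤ) i, o ((v ^ m) i) = o i ∧ n ((v ^ m) i) = m + n i := by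
  obtain ⟨o, n, h1, h2⟩ := orb (zpowersHom _ v)
  refine ⟨o, fun i => (n i).toAdd, h1, fun m i => ⟨h2 (Multiplicative.ofAdd m) i, ?_⟩⟩
  have a := h1 ((v ^ m) i)
  have b : o ((v ^ m) i) = o i := h2 (Multiplicative.ofAdd m) i
  have c : (v ^ (n i).toAdd) (o i) = i := h1 i
  rw [b] at a
  have := hv (-(m + (n i).toAdd) + (n ((v ^ m) i)).toAdd) (o i) (by
    rw [zpow_add, Equiv.Perm.mul_apply]
    change (v ^ (n ((v ^ m) i)).toAdd) (o i) = _ at a
    rw [a, zpow_neg, Equiv.Perm.inv_eq_iff_eq, zpow_add, Equiv.Perm.mul_apply, c])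
  simp only
  omega

lemma two_inv {I : Type} (v : Equiv.Perm I) (hv : ∀ (n : ℤ) i, (v ^ n) i = i → n = 0) :
    ∃ a b : Equiv.Perm I, a * a = 1 ∧ b * b = 1 ∧ v = a * b := by
  obtain ⟨o, n, h1, h2⟩ := zorb v hv
  have key : ∀ c : ℤ, Function.Involutive fun i => (v ^ (c - 2 * n i)) i := fun c i => by
    simp only [(h2 _ i).2]
    rw [← Equiv.Perm.mul_apply, ← zpow_add]
    have : c - 2 * (c - 2 * n i + n i) + (c - 2 * n i) = 0 := by ring
    rw [this]; rfl
  refine ⟨(key 1).toPerm, (key 0).toPerm, ?_, ?_, ?_⟩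
  · ext i; exact key 1 i
  · ext i; exact key 0 i
  · ext i
    simp only [Equiv.Perm.mul_apply, Function.Involutive.coe_toPerm, (h2 _ i).2]
    rw [← Equiv.Perm.mul_apply, ← zpow_add]
    have : 1 - 2 * (0 - 2 * n i + n i) + (0 - 2 * n i) = 1 := by ring
    rw [this, zpow_one]

def prm (e : Y × I ≃ X) (p : Equiv.Perm Y) (q : Equiv.Perm I) : Equiv.Perm X :=
  e.permCongr (Equiv.prodCongr p q)

@[simp] lemma prm_apply (e : Y × I ≃ X) (p : Equiv.Perm Y) (q : Equiv.Perm I) (y : Y) (i : I) :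
    prm e p q (e (y, i)) = e (p y, q i) := by simp [prm]

theorem conj [LinearOrder J] [WellFoundedLT J] (D : Dat Λ Φ I) (e : Y × I ≃ X) (ν : Y → J)
    (σ : Λ →* Au X) (hH : ∀ g j, Pres (σ (D.ι g)) (Hi e ν D.i0 j))
    (hL : ∀ l j, Pres (σ l) (Lo e ν j))
    (hl : ∀ y i, σ (D.lam i) (of (e (y, D.i0))) = of (e (y, i)))
    (v : Λ) (hv : ∀ (n : ℤ) (i : I), v ^ n • i = i → n = 0) :
    ∃ β : Au X, σ v = β * permHom (prm e 1 (MulAction.toPerm v)) * β⁻¹ := by
  classical
  have hpow : ∀ (n : ℤ) i, ((MulAction.toPerm v : Equiv.Perm I) ^ n) i = v ^ n • i := fun n i => by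
    have := map_zpow (MulAction.toPermHom Λ I) v n
    exact (DFunLike.congr_fun this i).symm
  obtain ⟨o, n, h1, h2⟩ := zorb (MulAction.toPerm v : Equiv.Perm I)
    (fun n i h => hv n i (by rwa [hpow] at h))
  simp only [hpow] at h1 h2
  let lam' : I → Λ := fun i => v ^ n i * D.lam (o i)
  have l1 : ∀ i, lam' i • D.i0 = i := fun i => by simp only [lam', mul_smul, D.lam_smul, h1]
  have l2 : ∀ i, lam' (v • i) = v * lam' i := fun i => by
    have := h2 1 i
    rw [zpow_one] at this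
    simp only [lam', this.1, this.2, zpow_add, zpow_one, mul_assoc]
  have l3 : ∀ i, lam' i = D.lam i * D.ι (D.coc (lam' i) D.i0) := fun i => by
    have := D.hc (lam' i) D.i0
    rwa [D.lam0, mul_one, l1] at this
  have m1 : ∀ i j, Maps (σ (D.lam i)) (sub (Hi e ν D.i0 j)) (sub (Hi e ν i j)) := fun i j =>
    Maps.of_gen
      (by
        rintro x (h | ⟨a, b⟩)
        · exact sub_mono (fun z hz => Or.inl hz) ((hL _ j _).2 (of_mem h))
        · obtain ⟨⟨y, i'⟩, rfl⟩ := e.surjective x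
          simp only [Equiv.symm_apply_apply] at a b
          rw [b, hl]; exact of_mem (Or.inr (by simp [a])))
      (by
        rintro x (h | ⟨a, b⟩)
        · exact sub_mono (fun z hz => Or.inl hz) (((hL _ j).inv _).2 (of_mem h))
        · obtain ⟨⟨y, i'⟩, rfl⟩ := e.surjective x
          simp only [Equiv.symm_apply_apply] at a b
          rw [b, ← hl]
          have : e (y, D.i0) ∈ Hi e ν D.i0 j := Or.inr (by simp [a])
          simpa using of_mem this)
  let g : I → Au X := fun i => σ (lam' i * (D.lam i)⁻¹)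
  have m2 : ∀ i j, Pres (g i) (Hi e ν i j) := fun i j => by
    simp only [g]
    rw [l3, map_mul, map_mul, map_inv]
    exact ((m1 i j).mul (hH _ j)).mul (m1 i j).inv
  let B : J → I → Set X := fun j i => {x | ν (e.symm x).1 = j ∧ (e.symm x).2 = i}
  have hr : ∀ j i, ∃ r : Au X, (∀ x ∈ B j i, r (of x) = g i (of x)) ∧
      (∀ x ∉ B j i, r (of x) = of x) ∧ Pres r (Lo e ν j ∪ B j i) := fun j i =>
    rel _ _ _ (hL _ j) (m2 i j) (fun x hx h => absurd hx.1 (ne_of_lt h))
  choose r r1 r2 r3 using hr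
  let _ : LinearOrder I := linearOrderOfSTO WellOrderingRel
  have : WellFoundedLT I := ⟨(inferInstance : IsWellOrder I WellOrderingRel).wf⟩
  let lev : X → J ×ₗ I := fun x => toLex (ν (e.symm x).1, (e.symm x).2)
  obtain ⟨β, b1, -⟩ := tri_pres lev (fun p => r (ofLex p).1 (ofLex p).2)
    (fun p => by
      have : ∀ x ∈ {x | lev x < p}, r (ofLex p).1 (ofLex p).2 (of x) = of x := fun x hx =>
        r2 _ _ x fun h => by
          have : lev x = p := by simp only [lev, h.1, h.2]; rfl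
          exact absurd hx (by simp [this])
      exact Maps.of_gen (fun x hx => by rw [this x hx]; exact of_mem hx)
        (fun x hx => by rw [inv_fix (this x hx)]; exact of_mem hx))
    (fun p => by
      have hsub : Lo e ν (ofLex p).1 ∪ B (ofLex p).1 (ofLex p).2 ⊆ {x | lev x ≤ p} := by
        rintro x (h | h)
        · have : lev x < p := Prod.Lex.lt_iff.2 (Or.inl h)
          exact le_of_lt this
        · have : lev x = p := by simp only [lev, h.1, h.2]; rfl
          exact le_of_eq this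
      refine Maps.of_gen (fun x hx => ?_) (fun x hx => ?_)
      · by_cases h : x ∈ B (ofLex p).1 (ofLex p).2
        · exact sub_mono hsub ((r3 _ _ _).2 (of_mem (Or.inr h)))
        · rw [r2 _ _ x h]; exact of_mem hx
      · by_cases h : x ∈ B (ofLex p).1 (ofLex p).2
        · exact sub_mono hsub (((r3 _ _).inv _).2 (of_mem (Or.inr h)))
        · rw [inv_fix (r2 _ _ x h)]; exact of_mem hx)
  have b2 : ∀ y i, β (of (e (y, i))) = σ (lam' i) (of (e (y, D.i0))) := fun y i => by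
    rw [b1, r1 _ _ _ (by simp [B, lev])]
    simp only [lev, g, Equiv.symm_apply_apply, ofLex_toLex]
    rw [map_mul, map_inv, MulAut.mul_apply, ← hl y i]; simp
  refine ⟨β, eq_mul_inv_of_mul_eq (aut_ext fun x => ?_)⟩
  obtain ⟨⟨y, i⟩, rfl⟩ := e.surjective x
  rw [MulAut.mul_apply, MulAut.mul_apply, permHom_of, prm_apply, b2, b2]
  change _ = σ (lam' (v • i)) _
  rw [l2, map_mul σ v]; rfl

end Pool.Agent.H.MP_0c10a3_al
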