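import Mathlib
import Pool.Agent.H.MP_0c10a3_al.Ext

namespace Pool.Agent.H.MP_0c10a3_al
open FreeGroup (of lift lift_apply_of)

variable {X I : Type}

def Roomy (I : Type) (i0 : I) (s : ℕ → Au X) : Prop :=
  ∃ (Y J : Type) (_ : LinearOrder J) (_ : WellFoundedLT J) (e : Y × I ≃ X) (ν : Y → J),
    Infinite Y ∧ ∀ n, (∀ y i, i ≠ i0 → s n (of (e (y, i))) = of (e (y, i))) ∧
      (∀ j, Pres (s n) (Lo e ν j)) ∧ ∀ j, Pres (s n) (Hi e ν i0 j)

theorem room [Countable I] [Infinite I] (i0 : I) {P J : Type} [LinearOrder P] [WellFoundedLT P]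
    (lev : X → P) (E : J × ℕ ≃ X) (Y : Set X) (hY : Y.Infinite) (h : X → ℕ) (w : J → ℕ → ℕ)
    (hw2 : ∀ j, Function.Injective (w j)) (hw3 : ∀ j m, E (j, w j m) ∉ Y)
    (hw4 : ∀ y ∈ Y, ∀ m, h y ≤ m → lev y ≤ lev (E ((E.symm y).1, w (E.symm y).1 m)))
    (b : ℕ) (hb2 : ∀ j, E (j, b) ∈ Y) (hb3 : ∀ x, lev (E ((E.symm x).1, b)) ≤ lev x)
    (s : ℕ → Au X) (hs1 : ∀ n x, x ∉ Y → s n (of x) = of x)
    (hs2 : ∀ n, ∀ x ∈ Y, s n (of x) ∈ sub {z | lev z < lev x ∨ (lev z = lev x ∧ z ∈ Y)} ∧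
      (s n)⁻¹ (of x) ∈ sub {z | lev z < lev x ∨ (lev z = lev x ∧ z ∈ Y)}) : Roomy I i0 s := by
  classical
  obtain ⟨cI, hcI⟩ := exists_injective_nat I
  have : Infinite {i : I // i ≠ i0} := Set.infinite_coe_iff.2 (Set.finite_singleton i0).infinite_compl
  let dI := Infinite.natEmbedding {i : I // i ≠ i0}
  let f : Y × I → X := fun p => if p.2 = i0 then p.1.1 else E ((E.symm p.1.1).1,
    w (E.symm p.1.1).1 (Nat.pair (h p.1.1) (Nat.pair (E.symm p.1.1).2 (cI p.2))))
  let g : X → Y × I := fun x => if hx : x ∈ Y then (⟨x, hx⟩, i0) else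
    (⟨E ((E.symm x).1, b), hb2 _⟩, (dI (E.symm x).2).1)
  have hf : Function.Injective f := by
    rintro ⟨y, i⟩ ⟨y', i'⟩ hh
    simp only [f] at hh
    split_ifs at hh with h1 h2 h2
    · rw [h1, h2, Subtype.ext hh]
    · exact absurd (hh ▸ y.2) (hw3 _ _)
    · exact absurd (hh ▸ y'.2) (hw3 _ _)
    · have := E.injective hh
      simp only [Prod.mk.injEq] at this
      obtain ⟨a, b⟩ := this
      rw [a] at b
      have c := (Nat.pair_eq_pair.1 (Nat.pair_eq_pair.1 (hw2 _ b)).2)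
      exact Prod.ext (Subtype.ext (E.symm.injective (Prod.ext a c.1))) (hcI c.2)
  have hg : Function.Injective g := by
    intro x x' hh
    simp only [g] at hh
    split_ifs at hh with h1 h2 h2
    · simpa using hh
    · exact absurd (congrArg Prod.snd hh).symm (dI _).2
    · exact absurd (congrArg Prod.snd hh) (dI _).2
    · simp only [Prod.mk.injEq, Subtype.mk.injEq, EmbeddingLike.apply_eq_iff_eq] at hh
      exact E.symm.injective (Prod.ext hh.1.1 (dI.injective (Subtype.ext hh.2)))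
  obtain ⟨e0, he, hR⟩ := Function.Embedding.schroeder_bernstein_of_rel hf hg
    (fun p x => (p.2 = i0 → x = p.1.1) ∧ (p.2 ≠ i0 → x ∉ Y ∧ lev p.1.1 ≤ lev x))
    (by
      rintro ⟨y, i⟩
      refine ⟨fun hi => by simp only at hi; simp [f, hi], fun hi => ?_⟩
      simp only at hi
      simp only [f, hi, if_false]
      exact ⟨hw3 _ _, hw4 _ y.2 _ (Nat.left_le_pair _ _)⟩)
    (by
      intro x
      by_cases hx : x ∈ Y
      · simp [g, hx]
      · simp only [g, hx, dif_neg, not_false_eq_true, true_and]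
        exact ⟨fun h => absurd h (dI _).2, fun _ => hb3 x⟩)
  let e := Equiv.ofBijective e0 he
  have e1 : ∀ y, e (y, i0) = y.1 := fun y => (hR (y, i0)).1 rfl
  have e2 : ∀ y i, i ≠ i0 → e (y, i) ∉ Y ∧ lev y.1 ≤ lev (e (y, i)) := fun y i => (hR (y, i)).2
  have e3 : ∀ x, lev (e.symm x).1.1 ≤ lev x := fun x => by
    obtain ⟨⟨y, i⟩, rfl⟩ := e.surjective x
    by_cases hi : i = i0
    · rw [Equiv.symm_apply_apply, hi, e1]
    · simpa using (e2 y i hi).2
  have e4 : ∀ y : Y, {z | lev z < lev y.1 ∨ (lev z = lev y.1 ∧ z ∈ Y)} ⊆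
      Hi e (fun y => lev y.1) i0 (lev y.1) := by
    rintro y z (hz | ⟨h1, h2⟩)
    · exact Or.inl ((e3 z).trans_lt hz)
    · have : e.symm z = (⟨z, h2⟩, i0) := by rw [Equiv.symm_apply_eq, e1]
      exact Or.inr (by simp [this, h1])
  have key : ∀ a : Au X, (∀ x, x ∉ Y → a (of x) = of x) →
      (∀ x ∈ Y, a (of x) ∈ sub {z | lev z < lev x ∨ (lev z = lev x ∧ z ∈ Y)}) → ∀ j,
      (∀ x ∈ Lo e (fun y => lev y.1) j, a (of x) ∈ sub (Lo e (fun y => lev y.1) j)) ∧
      ∀ x ∈ Hi e (fun y => lev y.1) i0 j, a (of x) ∈ sub (Hi e (fun y => lev y.1) i0 j) := by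
    intro a a1 a2 j
    have k1 : ∀ x ∈ Lo e (fun y => lev y.1) j, a (of x) ∈ sub (Lo e (fun y => lev y.1) j) := by
      intro x hx
      obtain ⟨⟨y, i⟩, rfl⟩ := e.surjective x
      by_cases hi : i = i0
      · have hy : lev y.1 < j := by simpa [Lo] using hx
        rw [hi, e1]
        refine sub_mono ((e4 y).trans ?_) (a2 _ y.2)
        rintro z (hz | hz)
        · exact hz.trans hy
        · exact hz.1.trans_lt hy
      · rw [a1 _ (e2 y i hi).1]; exact of_mem hx
    refine ⟨k1, ?_⟩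
    rintro x (hx | ⟨h1, h2⟩)
    · exact sub_mono (fun z hz => Or.inl hz) (k1 x hx)
    · obtain ⟨⟨y, i⟩, rfl⟩ := e.surjective x
      simp only [Equiv.symm_apply_apply] at h1 h2
      rw [h2, e1, ← h1]
      exact sub_mono (e4 y) (a2 _ y.2)
  refine ⟨Y, P, inferInstance, inferInstance, e, fun y => lev y.1, hY.to_subtype, fun n =>
    ⟨fun y i hi => hs1 n _ (e2 y i hi).1, fun j => ?_, fun j => ?_⟩⟩
  · exact Maps.of_gen (key _ (hs1 n) (fun x hx => (hs2 n x hx).1) j).1
      (key _ (fun x hx => inv_fix (hs1 n x hx)) (fun x hx => (hs2 n x hx).2) j).1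
  · exact Maps.of_gen (key _ (hs1 n) (fun x hx => (hs2 n x hx).1) j).2
      (key _ (fun x hx => inv_fix (hs1 n x hx)) (fun x hx => (hs2 n x hx).2) j).2

variable {J : Type} [LinearOrder J]

def Ds (E : J × ℕ ≃ X) (j : J) (m : ℕ) : Set X :=
  {x | (E.symm x).1 < j ∨ ((E.symm x).1 = j ∧ (E.symm x).2 < m)}

lemma Ds_mono (E : J × ℕ ≃ X) (j : J) {m m' : ℕ} (h : m ≤ m') : Ds E j m ⊆ Ds E j m' :=
  fun _ hx => hx.imp_right fun a => ⟨a.1, a.2.trans_le h⟩

lemma Ds_lt (E : J × ℕ ≃ X) {j j' : J} (h : j < j') (m m' : ℕ) : Ds E j m ⊆ Ds E j' m' :=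
  fun _ hx => Or.inl (hx.elim (fun a => a.trans h) fun a => a.1.trans_lt h)

lemma levels (E : J × ℕ ≃ X) (t : J → ℕ → ℕ) (ht : ∀ j, StrictMono (t j)) (h0 : ∀ j, t j 0 = 0) :
    ∃ k : X → ℕ, (∀ j i, k (E (j, t j i)) = i) ∧
      (∀ p : J ×ₗ ℕ, {x | toLex ((E.symm x).1, k x) < p} = Ds E (ofLex p).1
        (t (ofLex p).1 (ofLex p).2)) ∧
      ∀ p : J ×ₗ ℕ, {x | toLex ((E.symm x).1, k x) ≤ p} = Ds E (ofLex p).1
        (t (ofLex p).1 ((ofLex p).2 + 1)) := by
  classical
  have hex : ∀ x, ∃ i, (E.symm x).2 < t (E.symm x).1 (i + 1) := fun x =>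
    ⟨(E.symm x).2, (ht _).le_apply⟩
  have hk : ∀ x i, Nat.find (hex x) < i ↔ (E.symm x).2 < t (E.symm x).1 i := fun x i => by
    cases i with
    | zero => simp [h0]
    | succ i =>
      rw [Nat.lt_succ_iff, Nat.find_le_iff]
      exact ⟨fun ⟨m, h1, h2⟩ => h2.trans_le ((ht _).monotone (by omega)), fun h => ⟨i, le_rfl, h⟩⟩
  refine ⟨fun x => Nat.find (hex x), fun j i => ?_, fun p => ?_, fun p => ?_⟩
  · have a := hk (E (j, t j i)) i
    have b := hk (E (j, t j i)) (i + 1)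
    have a' : ¬ Nat.find (hex (E (j, t j i))) < i := by rw [a]; simp
    have b' : Nat.find (hex (E (j, t j i))) < i + 1 := by rw [b]; simpa using ht j (by omega)
    simp only
    omega
  · ext x
    simp only [Set.mem_ofPred_eq, Prod.Lex.lt_iff, ofLex_toLex, Ds, hk]
    exact or_congr_right (and_congr_right fun h => by rw [h])
  · ext x
    simp only [Set.mem_ofPred_eq, Prod.Lex.le_iff, ofLex_toLex, Ds, ← Nat.lt_succ_iff, hk]
    exact or_congr_right (and_congr_right fun h => by rw [h])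

variable [WellFoundedLT J] [Nonempty J] [Countable I] [Infinite I]

theorem decA (i0 : I) (K : Subgroup (ℕ → Au X)) (hK : ∀ s, Roomy I i0 s → s ∈ K)
    (E : J × ℕ ≃ X) (t : J → ℕ → ℕ) (ht : ∀ j, StrictMono (t j)) (h0 : ∀ j, t j 0 = 0)
    (s : ℕ → Au X) (hs : ∀ n j i, Pres (s n) (Ds E j (t j i))) : s ∈ K := by
  obtain ⟨k, k1, k2, k3⟩ := levels E t ht h0
  let lev : X → J ×ₗ ℕ := fun x => toLex ((E.symm x).1, k x)
  have col : ∀ ε < 2, ∀ ψ : ℕ → Au X, (∀ n x, k x % 2 ≠ ε → ψ n (of x) = of x) →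
      (∀ n p, Pres (ψ n) {x | lev x ≤ p}) → ψ ∈ K := by
    intro ε hε ψ h1 h2
    have sb : ∀ x, k x % 2 = ε → {z | lev z ≤ lev x} ⊆
        {z | lev z < lev x ∨ (lev z = lev x ∧ z ∈ {x | k x % 2 = ε ∨ k x = 0})} :=
      fun x hx z (hz : lev z ≤ lev x) => hz.lt_or_eq.imp_right fun h => ⟨h, Or.inl (by
        have : k z = k x := congrArg (fun p => (ofLex p).2) h
        rwa [this])⟩
    refine hK _ (room i0 lev E {x | k x % 2 = ε ∨ k x = 0} ?_ k (fun j m => t j (2 * m + 1 + ε))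
      (fun j a b h => by have := (ht j).injective h; omega)
      (fun j m h => by simp only [Set.mem_ofPred_eq, k1] at h; omega)
      (fun y _ m hm => Prod.Lex.le_iff.2 (Or.inr ⟨by simp [lev], by simp only [lev, k1, ofLex_toLex]; omega⟩))
      0 (fun j => Or.inr (by rw [← h0 j, k1, h0]))
      (fun x => Prod.Lex.le_iff.2 (Or.inr ⟨by simp [lev], by
        have := k1 (E.symm x).1 0
        rw [h0] at this
        simp [lev, this]⟩))
      ψ (fun n x hx => h1 n x fun h => hx (Or.inl h)) (fun n x hx => ?_))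
    · let j : J := Classical.arbitrary J
      refine Set.infinite_of_injective_forall_mem (f := fun m => E (j, t j (2 * m + ε)))
        (fun a b h => by
          have := (ht j).injective (congrArg Prod.snd (E.injective h)); omega)
        (fun m => Or.inl (by rw [k1]; omega))
    · by_cases h : k x % 2 = ε
      · exact ⟨sub_mono (sb x h) ((h2 n (lev x) _).2 (of_mem (le_refl (lev x)))),
          sub_mono (sb x h) (((h2 n (lev x)).inv _).2 (of_mem (le_refl (lev x))))⟩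
      · rw [inv_fix (h1 n x h), h1 n x h]
        exact ⟨of_mem (Or.inr ⟨rfl, hx⟩), of_mem (Or.inr ⟨rfl, hx⟩)⟩
  have hup : ∀ n p, Pres (s n) {x | lev x ≤ p} := fun n p => by rw [k3]; exact hs _ _ _
  choose ψ a1 a2 a3 using fun n => split lev {p | (ofLex p).2 % 2 = 0} (s n)
    (fun p _ => by rw [k2]; exact hs _ _ _) (fun p _ => hup n p)
  have h1 := col 0 (by omega) ψ a2 a3
  have h2 := col 1 (by omega) (ψ⁻¹ * s) (fun n x hx => by
      have : k x % 2 = 0 := by omega
      simp only [Pi.mul_apply, Pi.inv_apply, MulAut.mul_apply]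
      rw [← a1 n x this]; simp)
    (fun n p => (a3 n p).inv.mul (hup n p))
  simpa using mul_mem h1 h2

def qq (m c : ℕ) : ℕ :=
  if c % 3 = 2 ∧ c < m then 3 * (m + c) + 1
  else if c % 3 = 1 ∧ m ≤ c / 3 ∧ (c / 3 - m) % 3 = 2 ∧ c / 3 - m < m then c / 3 - m else c

lemma qq_inv (m c : ℕ) : qq m (qq m c) = c := by
  unfold qq; split_ifs <;> omega

lemma qq0 (m c : ℕ) (h : c % 3 = 0) : qq m c = c := by
  unfold qq; split_ifs <;> omega

lemma qq1 (m c : ℕ) (h : c % 3 ≠ 0) : qq m c % 3 ≠ 0 := by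
  unfold qq; split_ifs <;> omega

lemma qq2 (m c : ℕ) (h : c < m) : qq m c % 3 ≠ 2 := by
  unfold qq; split_ifs <;> omega

theorem decB (i0 : I) (K : Subgroup (ℕ → Au X)) (hK : ∀ s, Roomy I i0 s → s ∈ K)
    (E : J × ℕ ≃ X) (m : ℕ → J → ℕ) (f : ℕ → Au X)
    (h1 : ∀ n x, m n (E.symm x).1 ≤ (E.symm x).2 → f n (of x) = of x)
    (h2 : ∀ n j, Pres (f n) (Ds E j (m n j))) : f ∈ K := by
  have hinv : ∀ n, Function.Involutive fun z =>
      E ((E.symm z).1, qq (m n (E.symm z).1) (E.symm z).2) := fun n z => by simp [qq_inv]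
  let π : ℕ → Au X := fun n => permHom (hinv n).toPerm
  have hπ : ∀ n z, π n (of z) = of (E ((E.symm z).1, qq (m n (E.symm z).1) (E.symm z).2)) :=
    fun n z => rfl
  have hπ' : ∀ n, (π n)⁻¹ = π n := fun n => by
    rw [inv_eq_iff_mul_eq_one]
    exact aut_ext fun z => by rw [MulAut.mul_apply, hπ, hπ]; exact congrArg of (hinv n z)
  let j0 : J := Classical.arbitrary J
  have inf : Set.Infinite {x | (E.symm x).2 % 3 = 1} :=
    Set.infinite_of_injective_forall_mem (f := fun m => E (j0, 3 * m + 1))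
      (fun a b h => by have := congrArg Prod.snd (E.injective h); simp only at this; omega)
      (fun m => by simp only [Set.mem_ofPred_eq, Equiv.symm_apply_apply]; omega)
  have a1 : π ∈ K := by
    refine hK _ (room i0 (fun x => (E.symm x).1) E {x | (E.symm x).2 % 3 ≠ 0}
      (inf.mono fun x (hx : _ = 1) => by simp [hx]) (fun _ => 0) (fun _ m => 3 * m)
      (fun j a b h => by simp only at h; omega) (fun j m => by simp) (fun y _ m _ => by simp)
      1 (fun j => by simp) (fun x => by simp) π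
      (fun n x hx => by rw [hπ, qq0 _ _ (not_not.1 hx)]; simp) (fun n x hx => ?_))
    rw [hπ', and_self, hπ]
    exact of_mem (Or.inr ⟨by simp, by simpa using qq1 _ _ hx⟩)
  have a2 : π * f * π ∈ K := by
    have key : ∀ n (a : Au X), (∀ x, m n (E.symm x).1 ≤ (E.symm x).2 → a (of x) = of x) →
        (∀ j, Pres a (Ds E j (m n j))) → ∀ x, π n (a (π n (of x))) = of x ∨
        ((E.symm x).2 % 3 ≠ 2 ∧ π n (a (π n (of x))) ∈ sub {z | (E.symm z).1 < (E.symm x).1 ∨
          ((E.symm z).1 = (E.symm x).1 ∧ z ∈ {x | (E.symm x).2 % 3 ≠ 2})}) := by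
      intro n a b1 b2 x
      by_cases h : m n (E.symm x).1 ≤ qq (m n (E.symm x).1) (E.symm x).2
      · left
        rw [hπ, b1 _ (by simpa using h), hπ]; exact congrArg of (hinv n x)
      · right
        refine ⟨by have := qq2 _ _ (not_le.1 h); rwa [qq_inv] at this, ?_⟩
        rw [hπ]
        refine map_mem (π n).toMonoidHom (fun z hz => ?_)
          ((b2 (E.symm x).1 _).2 (of_mem (Or.inr (by simpa using h))))
        refine of_mem (hz.imp (by simp) fun ⟨c1, c2⟩ => ⟨by simpa using c1, ?_⟩)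
        simpa using qq2 _ _ (c1 ▸ c2)
    refine hK _ (room i0 (fun x => (E.symm x).1) E {x | (E.symm x).2 % 3 ≠ 2}
      (inf.mono fun x (hx : _ = 1) => by simp [hx]) (fun _ => 0) (fun _ m => 3 * m + 2)
      (fun j a b h => by simp only at h; omega) (fun j m => by simp) (fun y _ m _ => by simp)
      1 (fun j => by simp) (fun x => by simp) _
      (fun n x hx => (key n (f n) (h1 n) (h2 n) x).resolve_right fun h => hx h.1)
      (fun n x hx => ⟨?_, ?_⟩))
    · simp only [Pi.mul_apply, MulAut.mul_apply]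
      rcases key n (f n) (h1 n) (h2 n) x with h | h
      · rw [h]; exact of_mem (Or.inr ⟨rfl, hx⟩)
      · exact h.2
    · simp only [Pi.mul_apply, mul_inv_rev, hπ', MulAut.mul_apply]
      rcases key n (f n)⁻¹ (fun x hx => inv_fix (h1 n x hx)) (fun j => (h2 n j).inv) x with h | h
      · rw [h]; exact of_mem (Or.inr ⟨rfl, hx⟩)
      · exact h.2
  simpa [mul_assoc] using mul_mem (mul_mem (inv_mem a1) a2) (inv_mem a1)

theorem decC (i0 : I) (K : Subgroup (ℕ → Au X)) (hK : ∀ s, Roomy I i0 s → s ∈ K)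
    (E : J × ℕ ≃ X) (t : J → ℕ → ℕ) (ht : ∀ j, StrictMono (t j)) (h0 : ∀ j, t j 0 = 0)
    (s : ℕ → Au X) (r : ℕ → ℕ) (hs0 : ∀ n j, Pres (s n) (Ds E j 0))
    (hs : ∀ n j i, r n ≤ i → Pres (s n) (Ds E j (t j i))) : s ∈ K := by
  classical
  have hex : ∀ n, ∃ f : Au X, (∀ x, (E.symm x).2 < t (E.symm x).1 (r n) → f (of x) = s n (of x)) ∧
      (∀ x, t (E.symm x).1 (r n) ≤ (E.symm x).2 → f (of x) = of x) ∧
      ∀ j M, M = 0 ∨ t j (r n) ≤ M → Pres f (Ds E j M) := fun n => by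
    let lev : X → J ×ₗ ℕ := fun x =>
      toLex ((E.symm x).1, if (E.symm x).2 < t (E.symm x).1 (r n) then 0 else 1)
    have e1 : ∀ j, {x | lev x < toLex (j, 0)} = Ds E j 0 := fun j => by
      ext x; simp [lev, Prod.Lex.lt_iff, Ds]
    have e2 : ∀ j, {x | lev x ≤ toLex (j, 0)} = Ds E j (t j (r n)) := fun j => by
      ext x
      simp only [lev, Prod.Lex.le_iff, Ds, Set.mem_ofPred_eq, ofLex_toLex]
      refine or_congr_right (and_congr_right fun h => ?_)
      rw [h]; split_ifs with h' <;> simp [h']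
    obtain ⟨f, a1, a2, a3⟩ := split lev {p | (ofLex p).2 = 0} (s n)
      (fun p hp => by
        have : p = toLex ((ofLex p).1, 0) := by rw [← hp]; rfl
        rw [this, e1]; exact hs0 _ _)
      (fun p hp => by
        have : p = toLex ((ofLex p).1, 0) := by rw [← hp]; rfl
        rw [this, e2]; exact hs _ _ _ le_rfl)
    have b2 : ∀ x, t (E.symm x).1 (r n) ≤ (E.symm x).2 → f (of x) = of x :=
      fun x hx => a2 x (by simp [lev, hx])
    have b3 : ∀ j, Pres f (Ds E j 0) := fun j => e1 j ▸ pres_of_up lev a3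
      fun x (hx : lev x < _) y hy => hy.trans_lt hx
    refine ⟨f, fun x hx => a1 x (by simp [lev, hx]), b2, fun j M hM => ?_⟩
    rcases hM with rfl | hM
    · exact b3 j
    have c : ∀ a : Au X, (∀ x, t (E.symm x).1 (r n) ≤ (E.symm x).2 → a (of x) = of x) →
        Pres a (Ds E j (t j (r n))) → ∀ x ∈ Ds E j M, a (of x) ∈ sub (Ds E j M) := by
      intro a c1 c2 x hx
      by_cases h : x ∈ Ds E j (t j (r n))
      · exact sub_mono (Ds_mono E j hM) ((c2 _).2 (of_mem h))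
      · rw [c1 x]
        · exact of_mem hx
        · rcases hx with hx | hx
          · exact absurd (Or.inl hx) h
          · exact not_lt.1 fun h' => h (Or.inr ⟨hx.1, hx.1 ▸ h'⟩)
    exact Maps.of_gen (c f b2 (e2 j ▸ a3 _))
      (c f⁻¹ (fun x hx => inv_fix (b2 x hx)) (e2 j ▸ (a3 _).inv))
  choose f f1 f2 f3 using hex
  have a1 := decB i0 K hK E (fun n j => t j (r n)) f f2 (fun n j => f3 n j _ (Or.inr le_rfl))
  have a2 := decA i0 K hK E t ht h0 (f⁻¹ * s) fun n j i => by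
    by_cases hi : r n ≤ i
    · exact (f3 n j _ (Or.inr ((ht j).monotone hi))).inv.mul (hs n j i hi)
    · have fx : ∀ x, (E.symm x).2 < t (E.symm x).1 (r n) → (f⁻¹ * s) n (of x) = of x := fun x hx => by
        simp only [Pi.mul_apply, Pi.inv_apply, MulAut.mul_apply]
        rw [← f1 n x hx]; simp
      have p0 : Pres ((f⁻¹ * s) n) (Ds E j 0) := (f3 n j 0 (Or.inl rfl)).inv.mul (hs0 n j)
      have lt : ∀ x, (E.symm x).1 = j ∧ (E.symm x).2 < t j i →
          (E.symm x).2 < t (E.symm x).1 (r n) := fun x hx =>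
        hx.2.trans (hx.1 ▸ ht j (not_le.1 hi))
      refine Maps.of_gen (fun x hx => ?_) (fun x hx => ?_)
      · rcases id hx with h | h
        · exact sub_mono (Ds_mono E j (Nat.zero_le _)) ((p0 _).2 (of_mem (Or.inl h)))
        · rw [fx x (lt x h)]; exact of_mem hx
      · rcases id hx with h | h
        · exact sub_mono (Ds_mono E j (Nat.zero_le _)) ((p0.inv _).2 (of_mem (Or.inl h)))
        · rw [inv_fix (fx x (lt x h))]; exact of_mem hx
  simpa using mul_mem a1 a2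

end Pool.Agent.H.MP_0c10a3_al
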