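import Mathlib
import Pool.Agent.H.MP_0c10a3_al.Tri

namespace Pool.Agent.H.MP_0c10a3_al
open FreeGroup (of lift lift_apply_of)

variable {X : Type}

theorem schreier (A : Subgroup (FreeGroup X)) :
    ∃ (N : Type) (s : N → FreeGroup X), Function.Injective (lift s) ∧ (lift s).range = A ∧
      ∀ x, of x ∈ A → ∃ n, s n = of x := by
  classical
  let Ω := FreeGroup X ⧸ A
  let q0 : Ω := ((1 : FreeGroup X) : Ω)
  have hq0 : ∀ w : FreeGroup X, w • q0 = q0 ↔ w ∈ A := fun w => by
    change ((w * 1 : FreeGroup X) : Ω) = ((1 : FreeGroup X) : Ω) ↔ _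
    rw [eq_comm, QuotientGroup.eq]; simp
  have hex : ∀ q : Ω, ∃ n, ∃ g : FreeGroup X, (g : Ω) = q ∧ g.norm = n := fun q => by
    obtain ⟨g, rfl⟩ := QuotientGroup.mk_surjective q
    exact ⟨_, g, rfl, rfl⟩
  let d : Ω → ℕ := fun q => Nat.find (hex q)
  let lt : X → Bool → FreeGroup X := fun x b => if b then of x else (of x)⁻¹
  have hpar : ∀ q : Ω, ∃ (q' : Ω) (x : Option X) (b : Bool), q ≠ q0 → d q' < d q ∧
      ∃ y, x = some y ∧ q = lt y b • q' := fun q => by
    by_cases hq : q = q0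
    · exact ⟨q, none, true, fun h => absurd hq h⟩
    obtain ⟨g, hg, hn⟩ := Nat.find_spec (hex q)
    rcases hL : g.toWord with _ | ⟨⟨x, b⟩, L⟩
    · rw [FreeGroup.toWord_eq_nil_iff] at hL
      exact absurd (hL ▸ hg).symm hq
    refine ⟨(FreeGroup.mk L : FreeGroup X), some x, b, fun _ => ⟨?_, x, rfl, ?_⟩⟩
    · have h1 : d (FreeGroup.mk L : FreeGroup X) ≤ (FreeGroup.mk L).norm :=
        Nat.find_min' (hex _) ⟨_, rfl, rfl⟩
      have h2 : (FreeGroup.mk L).norm ≤ L.length := FreeGroup.norm_mk_le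
      have h3 : g.norm = L.length + 1 := by rw [FreeGroup.norm, hL]; simp
      have h4 : d q = g.norm := hn.symm
      omega
    · have : g = lt x b * FreeGroup.mk L := by
        rw [← FreeGroup.mk_toWord (x := g), hL]
        cases b <;> rfl
      rw [← hg, this]; rfl
  choose par lx lb hp using hpar
  let lt' : Ω → FreeGroup X := fun q => (lx q).elim 1 fun y => lt y (lb q)
  obtain ⟨t, ht⟩ := tri_rec d (fun q f => if q = q0 then (1 : FreeGroup X) else lt' q * f (par q))
    (fun q f g h => by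
      by_cases hq : q = q0
      · simp [hq]
      · simp [hq, h _ (hp q hq).1])
  have ht0 : t q0 = 1 := by rw [ht]; simp
  have ht1 : ∀ q, q ≠ q0 → t q = lt' q * t (par q) := fun q hq => by rw [ht]; simp [hq]
  have hq1 : ∀ q, q ≠ q0 → q = lt' q • par q := fun q hq => by
    obtain ⟨y, h1, h2⟩ := (hp q hq).2
    simp only [lt', h1, Option.elim]; exact h2
  have htq : ∀ q, t q • q0 = q := by
    intro q
    induction hn : d q using Nat.strong_induction_on generalizing q with
    | _ n ih =>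
    by_cases hq : q = q0
    · rw [hq, ht0, one_smul]
    · rw [ht1 q hq, mul_smul, ih _ (hn ▸ (hp q hq).1) _ rfl]; exact (hq1 q hq).symm
  let Tr : Ω × X → Prop := fun p =>
    (of p.2 • p.1 ≠ q0 ∧ par (of p.2 • p.1) = p.1 ∧ lx (of p.2 • p.1) = some p.2 ∧
      lb (of p.2 • p.1) = true) ∨
    (p.1 ≠ q0 ∧ par p.1 = of p.2 • p.1 ∧ lx p.1 = some p.2 ∧ lb p.1 = false)
  let sg : Ω × X → FreeGroup X := fun p => (t (of p.2 • p.1))⁻¹ * of p.2 * t p.1
  have hsg : ∀ p, Tr p → sg p = 1 := by
    rintro ⟨q, x⟩ (⟨h1, h2, h3, h4⟩ | ⟨h1, h2, h3, h4⟩)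
    · simp only at h1 h2 h3 h4
      simp only [sg]
      rw [ht1 _ h1, h2]; simp [lt', h3, h4, lt]
    · simp only at h1 h2 h3 h4
      simp only [sg]
      rw [ht1 q h1, h2]; simp [lt', h3, h4, lt]
  let N := {p : Ω × X // ¬ Tr p}
  let c : Ω → X → FreeGroup N := fun q x => if h : Tr (q, x) then 1 else of ⟨(q, x), h⟩
  let s : N → FreeGroup X := fun n => sg n.1
  have hsc : ∀ q x, lift s (c q x) = sg (q, x) := fun q x => by
    by_cases h : Tr (q, x)
    · simp [c, h, hsg _ h]
    · simp [c, h, s]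
  let Ψ : FreeGroup X →* Equiv.Perm (Ω × FreeGroup N) := lift fun x =>
    { toFun := fun p => (of x • p.1, c p.1 x * p.2)
      invFun := fun p => ((of x)⁻¹ • p.1, (c ((of x)⁻¹ • p.1) x)⁻¹ * p.2)
      left_inv := fun p => by simp
      right_inv := fun p => by simp }
  have hΨ0 : ∀ w q, ∃ k, ∀ g, Ψ w (q, g) = (w • q, k * g) := by
    intro w
    induction w using FreeGroup.induction_on with
    | C1 => intro q; exact ⟨1, fun g => by simp⟩
    | of x => intro q; exact ⟨c q x, fun g => by simp [Ψ]⟩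
    | inv_of x _ =>
      intro q
      refine ⟨(c ((of x)⁻¹ • q) x)⁻¹, fun g => ?_⟩
      rw [map_inv, Equiv.Perm.inv_eq_iff_eq]
      simp [Ψ]
    | mul a b ha hb =>
      intro q
      obtain ⟨k, hk⟩ := hb q
      obtain ⟨k', hk'⟩ := ha (b • q)
      exact ⟨k' * k, fun g => by rw [map_mul, Equiv.Perm.mul_apply, hk, hk', mul_smul, mul_assoc]⟩
  choose C hC using hΨ0
  have C_mul : ∀ a b q, C (a * b) q = C a (b • q) * C b q := fun a b q => by
    have := hC (a * b) q 1
    rw [map_mul, Equiv.Perm.mul_apply, hC, hC] at this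
    simpa using (congrArg Prod.snd this).symm
  have C_one : ∀ q, C 1 q = 1 := fun q => by
    have := hC 1 q 1
    simpa using (congrArg Prod.snd this).symm
  have C_of : ∀ x q, C (of x) q = c q x := fun x q => by
    have := hC (of x) q 1
    simpa [Ψ] using (congrArg Prod.snd this).symm
  have C_inv : ∀ w q, C w⁻¹ (w • q) = (C w q)⁻¹ := fun w q => by
    have := C_mul w⁻¹ w q
    rw [inv_mul_cancel, C_one] at this
    exact eq_inv_of_mul_eq_one_left this.symm
  have C_t : ∀ q, C (t q) q0 = 1 := by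
    intro q
    induction hn : d q using Nat.strong_induction_on generalizing q with
    | _ n ih =>
    by_cases hq : q = q0
    · rw [hq, ht0, C_one]
    · rw [ht1 q hq, C_mul, ih _ (hn ▸ (hp q hq).1) _ rfl, htq, mul_one]
      obtain ⟨y, h1, h2⟩ := (hp q hq).2
      cases hb : lb q
      · have h3 : par q = of y • q := by
          conv_rhs => rw [h2]
          simp [lt, hb]
        have : Tr (q, y) := Or.inr ⟨hq, h3, h1, hb⟩
        simp only [lt', h1, Option.elim, lt, hb]
        rw [h3]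
        simp [C_inv, C_of, c, this]
      · have h3 : of y • par q = q := by
          conv_rhs => rw [h2]
          simp [lt, hb]
        have : Tr (par q, y) := Or.inl (by simp only [h3]; exact ⟨hq, trivial, h1, hb⟩)
        simp [lt', h1, lt, hb, C_of, c, this]
  have hlam : ∀ w q, lift s (C w q) = (t (w • q))⁻¹ * w * t q := by
    intro w
    induction w using FreeGroup.induction_on with
    | C1 => intro q; simp [C_one]
    | of x => intro q; rw [C_of, hsc]
    | inv_of x ih =>
      intro q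
      have := C_inv (of x) ((of x)⁻¹ • q)
      rw [smul_inv_smul] at this
      rw [this, map_inv, ih]; simp [mul_assoc]
    | mul a b ha hb => intro q; rw [C_mul, map_mul, ha, hb, mul_smul]; group
  have hsA : ∀ p, sg p • q0 = q0 := fun p => by
    simp only [sg, mul_smul, htq]
    rw [inv_smul_eq_iff, htq]
  have key : ∀ g : FreeGroup N, lift s g • q0 = q0 ∧ C (lift s g) q0 = g := by
    intro g
    induction g using FreeGroup.induction_on with
    | C1 => simp [C_one]
    | of n =>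
      rw [lift_apply_of]
      refine ⟨hsA _, ?_⟩
      obtain ⟨⟨q, x⟩, hn⟩ := n
      simp only [s, sg]
      rw [mul_assoc, C_mul, C_mul, C_t, htq, C_of, mul_smul, htq]
      have := C_inv (t (of x • q)) q0
      rw [htq, C_t] at this
      rw [this]; simp [c, hn]
    | inv_of n ih =>
      rw [map_inv]
      have := C_inv (lift s (of n)) q0
      rw [ih.1, ih.2] at this
      exact ⟨by rw [inv_smul_eq_iff, ih.1], this⟩
    | mul a b ha hb =>
      rw [map_mul, mul_smul, hb.1, C_mul, hb.1, ha.2, hb.2]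
      exact ⟨ha.1, rfl⟩
  refine ⟨N, s, fun a b h => ?_, ?_, fun x hx => ?_⟩
  · rw [← (key a).2, h, (key b).2]
  · ext w
    constructor
    · rintro ⟨g, rfl⟩
      exact (hq0 _).1 (key g).1
    · intro hw
      exact ⟨C w q0, by rw [hlam, (hq0 w).2 hw, ht0]; simp⟩
  · have h := (hq0 _).2 hx
    refine ⟨⟨(q0, x), ?_⟩, ?_⟩
    · rintro (h1 | h1)
      · exact h1.1 h
      · exact h1.1 rfl
    · simp [s, sg, h, ht0]

lemma rank_compl {N M : Type} (θ : FreeGroup N ≃* FreeGroup M) (N0 : Set N) (M0 : Set M)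
    (h1 : ∀ n ∈ N0, θ (of n) ∈ sub M0) (h2 : ∀ m ∈ M0, θ.symm (of m) ∈ sub N0) :
    Nonempty ((N0ᶜ : Set N) ≃ (M0ᶜ : Set M)) := by
  classical
  have aux : ∀ {N M : Type} (θ : FreeGroup N ≃* FreeGroup M) (N0 : Set N) (M0 : Set M)
      (h2 : ∀ m ∈ M0, θ.symm (of m) ∈ sub N0) (w : FreeGroup (N0ᶜ : Set N)),
      (lift fun n => if h : n ∈ N0 then 1 else (of ⟨n, h⟩ : FreeGroup (N0ᶜ : Set N)))
        (θ.symm (FreeGroup.map Subtype.val
          ((lift fun m => if h : m ∈ M0 then 1 else (of ⟨m, h⟩ : FreeGroup (M0ᶜ : Set M)))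
            (θ (FreeGroup.map Subtype.val w))))) = w := by
    intro N M θ N0 M0 h2 w
    set kN : FreeGroup N →* FreeGroup (N0ᶜ : Set N) :=
      lift fun n => if h : n ∈ N0 then 1 else (of ⟨n, h⟩ : FreeGroup (N0ᶜ : Set N)) with hkN
    set kM : FreeGroup M →* FreeGroup (M0ᶜ : Set M) :=
      lift fun m => if h : m ∈ M0 then 1 else (of ⟨m, h⟩ : FreeGroup (M0ᶜ : Set M)) with hkM
    have e1 : (kN.comp θ.symm.toMonoidHom).comp ((FreeGroup.map Subtype.val).comp kM) =
        kN.comp θ.symm.toMonoidHom := by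
      ext m
      by_cases hm : m ∈ M0
      · have := map_mem kN (K := ⊥) (S := N0) (fun n hn => by simp [hkN, hn]) (h2 m hm)
        simp only [Subgroup.mem_bot] at this
        simp [hkM, hm, this]
      · simp [hkM, hm]
    have e2 : kN.comp (FreeGroup.map Subtype.val) = MonoidHom.id _ := by
      ext ⟨n, hn⟩
      have hn' : n ∉ N0 := hn
      simp [hkN, hn']
    have := DFunLike.congr_fun e1 (θ (FreeGroup.map Subtype.val w))
    simp only [MonoidHom.comp_apply, MulEquiv.coe_toMonoidHom, MulEquiv.symm_apply_apply] at this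
    rw [this]
    exact DFunLike.congr_fun e2 w
  refine ⟨Equiv.ofFreeGroupEquiv (MonoidHom.toMulEquiv
    (((lift fun m => if h : m ∈ M0 then 1 else (of ⟨m, h⟩ : FreeGroup (M0ᶜ : Set M))).comp
      θ.toMonoidHom).comp (FreeGroup.map Subtype.val))
    (((lift fun n => if h : n ∈ N0 then 1 else (of ⟨n, h⟩ : FreeGroup (N0ᶜ : Set N))).comp
      θ.symm.toMonoidHom).comp (FreeGroup.map Subtype.val)) ?_ ?_)⟩
  · exact MonoidHom.ext fun w => aux θ N0 M0 h2 w
  · exact MonoidHom.ext fun w => aux θ.symm M0 N0 h1 w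

lemma incl_inj (S : Set X) : Function.Injective (FreeGroup.map (Subtype.val : S → X)) :=
  FreeGroup.map_injective Subtype.val_injective

lemma incl_range (S : Set X) : (FreeGroup.map (Subtype.val : S → X)).range = sub S := by
  apply le_antisymm
  · rintro _ ⟨w, rfl⟩
    exact map_mem _ (S := Set.univ) (fun x _ => of_mem x.2) (mem_univ' w)
  · exact sub_le fun x hx => ⟨of ⟨x, hx⟩, rfl⟩

lemma ext_aut (S : Set X) (f : FreeGroup S →* FreeGroup X) (hf : Function.Injective f)
    (hr : f.range = sub S) :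
    ∃ a : Au X, (∀ x : S, a (of x.1) = f (of x)) ∧ (∀ x ∉ S, a (of x) = of x) ∧ Pres a S := by
  classical
  have hex : ∀ x : S, ∃ u, f u = of x.1 := fun x => by
    have : of x.1 ∈ f.range := hr ▸ of_mem x.2
    exact this
  choose u hu using hex
  let i := FreeGroup.map (Subtype.val : S → X)
  let a : FreeGroup X →* FreeGroup X := lift fun x => if h : x ∈ S then f (of ⟨x, h⟩) else of x
  let b : FreeGroup X →* FreeGroup X := lift fun x => if h : x ∈ S then i (u ⟨x, h⟩) else of x
  have e1 : a.comp i = f := by ext ⟨x, hx⟩; simp [a, i, hx]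
  have e2 : f.comp (lift u) = i := by ext x; simp [hu, i]
  have e3 : b.comp i = i.comp (lift u) := by ext ⟨x, hx⟩; simp [b, i, hx]
  have e4 : ∀ w, b (f w) = i w := fun w => by
    have : f w ∈ i.range := by rw [incl_range, ← hr]; exact ⟨w, rfl⟩
    obtain ⟨v, hv⟩ := this
    have h1 : lift u v = w := hf (by rw [← hv]; exact DFunLike.congr_fun e2 v)
    rw [← hv, ← h1]
    exact DFunLike.congr_fun e3 v
  have hba : b.comp a = MonoidHom.id _ := by
    ext x
    by_cases hx : x ∈ S
    · simp only [MonoidHom.comp_apply, a, lift_apply_of, hx, dif_pos, e4]; rfl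
    · simp [a, b, hx]
  have hab : a.comp b = MonoidHom.id _ := by
    ext x
    by_cases hx : x ∈ S
    · simp only [MonoidHom.comp_apply, b, lift_apply_of, hx, dif_pos]
      exact (DFunLike.congr_fun e1 _).trans (hu _)
    · simp [a, b, hx]
  refine ⟨MonoidHom.toMulEquiv a b hba hab, fun x => by simp [a], fun x hx => by simp [a, hx],
    Maps.of_gen (fun x hx => ?_) (fun x hx => ?_)⟩
  · change a (of x) ∈ _
    simp only [a, lift_apply_of, hx, dif_pos]
    exact hr ▸ ⟨_, rfl⟩
  · change b (of x) ∈ _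
    simp only [b, lift_apply_of, hx, dif_pos]
    exact incl_range S ▸ ⟨_, rfl⟩

theorem step (S0 S S' : Set X) (h0 : S0 ⊆ S) (hfin : (S \ S0).Finite) (h1 : S ⊆ S') (g : Au X)
    (hg0 : Pres g S0) (hg : ∀ x ∈ S, g (of x) ∈ sub S') :
    ∃ a : Au X, (∀ x ∈ S, a (of x) = g (of x)) ∧ Pres a S' := by
  classical
  obtain ⟨N, s, hs1, hs2, hs3⟩ := schreier ((sub S').comap g.toMonoidHom)
  have hex : ∀ x : S, ∃ n, s n = of x.1 := fun x => hs3 x.1 (hg x.1 x.2)
  choose j hj using hex
  have hjinj : Function.Injective j := fun x y h =>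
    Subtype.ext (FreeGroup.of_injective (by rw [← hj, ← hj, h]))
  let f : FreeGroup N →* FreeGroup X := g.toMonoidHom.comp (lift s)
  have hf : Function.Injective f := g.injective.comp hs1
  have hfr : f.range = sub S' := by
    ext w
    constructor
    · rintro ⟨v, rfl⟩
      have : lift s v ∈ (sub S').comap g.toMonoidHom := hs2 ▸ ⟨v, rfl⟩
      exact this
    · intro hw
      have : g⁻¹ w ∈ (lift s).range := by rw [hs2]; simpa using hw
      obtain ⟨v, hv⟩ := this
      exact ⟨v, by simp [f, hv]⟩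
  let i := FreeGroup.map (Subtype.val : S' → X)
  let θ : FreeGroup N ≃* FreeGroup S' := (MonoidHom.ofInjective hf).trans
    ((MulEquiv.subgroupCongr (hfr.trans (incl_range S').symm)).trans
      (MonoidHom.ofInjective (incl_inj S')).symm)
  have hθ : ∀ w, i (θ w) = f w := fun w => by
    have := MonoidHom.apply_ofInjective_symm (incl_inj S')
      (MulEquiv.subgroupCongr (hfr.trans (incl_range S').symm) (MonoidHom.ofInjective hf w))
    exact this
  let N0 : Set N := j '' {x | x.1 ∈ S0}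
  let M0 : Set S' := {x | x.1 ∈ S0}
  have hi0 : ∀ w ∈ sub S0, ∃ v ∈ sub M0, i v = w := fun w hw =>
    sub_le (K := (sub M0).map i) (fun x hx => ⟨of ⟨x, h1 (h0 hx)⟩, of_mem hx, rfl⟩) hw
  have hs0 : ∀ w ∈ sub S0, ∃ v ∈ sub N0, lift s v = w := fun w hw =>
    sub_le (K := (sub N0).map (lift s))
      (fun x hx => ⟨of (j ⟨x, h0 hx⟩), of_mem ⟨_, hx, rfl⟩, by simp [hj]⟩) hw
  obtain ⟨e⟩ := rank_compl θ N0 M0
    (by
      rintro _ ⟨x, hx, rfl⟩
      obtain ⟨v, hv, h⟩ := hi0 _ ((hg0 _).2 (of_mem hx))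
      have : θ (of (j x)) = v := incl_inj S' (by
        change i _ = i _
        rw [hθ, h]; simp [f, hj])
      exact this ▸ hv)
    (by
      intro m hm
      obtain ⟨v, hv, h⟩ := hs0 _ ((hg0.inv _).2 (of_mem hm))
      have : θ v = of m := incl_inj S' (by
        change i _ = i _
        rw [hθ]; simp [f, h, i])
      rw [← this]; simpa using hv)
  let k : {x : S' | x.1 ∈ S} ↪ N := ⟨fun x => j ⟨x.1.1, x.2⟩, fun x y h => by
    have := hjinj h
    exact Subtype.ext (Subtype.ext (congrArg (fun z : S => z.1) this))⟩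
  have hc : Nonempty (({x : S' | x.1 ∈ S}ᶜ : Set S') ≃ ((Set.range k)ᶜ : Set N)) := by
    rw [← Cardinal.eq]
    have a1 : Cardinal.mk (M0ᶜ : Set S') =
        Cardinal.mk (S \ S0 : Set X) + Cardinal.mk ({x : S' | x.1 ∈ S}ᶜ : Set S') := by
      have : M0ᶜ = {x : S' | x.1 ∈ S \ S0} ∪ {x : S' | x.1 ∈ S}ᶜ := by
        ext x
        have := @h0 x.1
        simp only [M0, Set.mem_compl_iff, Set.mem_ofPred_eq, Set.mem_union, Set.mem_sdiff]
        tauto
      rw [this, Cardinal.mk_union_of_disjoint (by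
        rw [Set.disjoint_left]; intro x hx hx'; exact hx' hx.1)]
      congr 1
      exact Cardinal.mk_congr
        { toFun := fun x => ⟨x.1.1, x.2⟩
          invFun := fun x => ⟨⟨x.1, h1 x.2.1⟩, x.2⟩
          left_inv := fun _ => rfl
          right_inv := fun _ => rfl }
    have a2 : Cardinal.mk (N0ᶜ : Set N) =
        Cardinal.mk (S \ S0 : Set X) + Cardinal.mk ((Set.range k)ᶜ : Set N) := by
      have : N0ᶜ = j '' {x | x.1 ∉ S0} ∪ (Set.range k)ᶜ := by
        ext n
        constructor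
        · intro hn
          by_cases h : n ∈ Set.range k
          · obtain ⟨x, rfl⟩ := h
            exact Or.inl ⟨⟨x.1.1, x.2⟩, fun h => hn ⟨_, h, rfl⟩, rfl⟩
          · exact Or.inr h
        · rintro (⟨x, hx, rfl⟩ | hn)
          · rintro ⟨y, hy, h⟩
            exact hx (hjinj h ▸ hy)
          · rintro ⟨y, -, rfl⟩
            exact hn ⟨⟨⟨y.1, h1 y.2⟩, y.2⟩, rfl⟩
      rw [this, Cardinal.mk_union_of_disjoint (by
        rw [Set.disjoint_left]
        rintro _ ⟨y, -, rfl⟩ hn
        exact hn ⟨⟨⟨y.1, h1 y.2⟩, y.2⟩, rfl⟩), Cardinal.mk_image_eq hjinj]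
      congr 1
      exact Cardinal.mk_congr
        { toFun := fun x => ⟨x.1.1, x.1.2, x.2⟩
          invFun := fun x => ⟨⟨x.1, x.2.1⟩, x.2.2⟩
          left_inv := fun _ => rfl
          right_inv := fun _ => rfl }
    have a3 := Cardinal.mk_congr e
    rw [a1, a2] at a3
    exact (Cardinal.eq_of_add_eq_add_left a3 hfin.lt_aleph0).symm
  obtain ⟨b, hb⟩ := Cardinal.extend_function k hc
  obtain ⟨a, ha1, -, ha3⟩ := ext_aut S' (f.comp (FreeGroup.freeGroupCongr b).toMonoidHom)
    (hf.comp (FreeGroup.freeGroupCongr b).injective)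
    (by
      rw [← hfr]
      ext w
      constructor
      · rintro ⟨v, rfl⟩; exact ⟨_, rfl⟩
      · rintro ⟨v, rfl⟩; exact ⟨(FreeGroup.freeGroupCongr b).symm v,
          congrArg f ((FreeGroup.freeGroupCongr b).apply_symm_apply v)⟩)
  refine ⟨a, fun x hx => ?_, ha3⟩
  have := ha1 ⟨x, h1 hx⟩
  rw [this]
  have h2 := hb ⟨⟨x, h1 hx⟩, hx⟩
  change f (of (b ⟨x, h1 hx⟩)) = _
  rw [h2]
  simp [f, k, hj]

end Pool.Agent.H.MP_0c10a3_al
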