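import Mathlib
import Pool.Agent.H.MP_0c10a3_al.Room
import Pool.Agent.H.MP_0c10a3_al.Schreier

namespace Pool.Agent.H.MP_0c10a3_al
open FreeGroup (of lift lift_apply_of)

variable {X I : Type}

lemma countable_rtg (R : X → X → Prop) (hR : ∀ x, {y | R x y}.Countable) (x : X) :
    {y | Relation.ReflTransGen R x y}.Countable := by
  let S : ℕ → Set X := fun n => Nat.rec {x} (fun _ T => ⋃ y ∈ T, {z | R y z}) n
  have hS : ∀ n, (S n).Countable := fun n => by
    induction n with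
    | zero => exact Set.countable_singleton x
    | succ n ih => exact ih.biUnion fun y _ => hR y
  refine (Set.countable_iUnion hS).mono fun y hy => ?_
  induction hy with
  | refl => exact Set.mem_iUnion.2 ⟨0, rfl⟩
  | tail _ h ih =>
    obtain ⟨n, hn⟩ := Set.mem_iUnion.1 ih
    exact Set.mem_iUnion.2 ⟨n + 1, Set.mem_biUnion hn h⟩

theorem blocks [Infinite X] (φ : ℕ → Au X) :
    ∃ (J : Type) (_ : LinearOrder J) (_ : WellFoundedLT J) (_ : Nonempty J) (E : J × ℕ ≃ X),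
      ∀ n x, φ n (of x) ∈ sub {y | (E.symm y).1 ≤ (E.symm x).1} ∧
        (φ n)⁻¹ (of x) ∈ sub {y | (E.symm y).1 ≤ (E.symm x).1} := by
  classical
  obtain ⟨E0⟩ : Nonempty (X × ℕ ≃ X) := by
    rw [← Cardinal.eq]; simp
  choose sp sp1 _ sp2 using fun w : FreeGroup X => exists_fin (mem_univ' w)
  let R : X → X → Prop := fun x y => (∃ n, y ∈ sp (φ n (of x)) ∨ y ∈ sp ((φ n)⁻¹ (of x))) ∨
    ∃ m, y = E0 ((E0.symm x).1, m)
  have hR : ∀ x, {y | R x y}.Countable := fun x => by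
    refine ((Set.countable_iUnion fun n => ((sp1 (φ n (of x))).union
      (sp1 ((φ n)⁻¹ (of x)))).countable).union
      (Set.countable_range fun m => E0 ((E0.symm x).1, m))).mono ?_
    rintro y (⟨n, h⟩ | ⟨m, h⟩)
    · exact Or.inl (Set.mem_iUnion.2 ⟨n, h⟩)
    · exact Or.inr ⟨m, h.symm⟩
  let _ : LinearOrder X := linearOrderOfSTO WellOrderingRel
  have wf : WellFoundedLT X := ⟨(inferInstance : IsWellOrder X WellOrderingRel).wf⟩
  let ν : X → X := fun x => wf.wf.min {y | Relation.ReflTransGen R y x} ⟨x, .refl⟩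
  have h1 : ∀ x, Relation.ReflTransGen R (ν x) x := fun x =>
    wf.wf.min_mem {y | Relation.ReflTransGen R y x} ⟨x, .refl⟩
  have h2 : ∀ x y, R x y → ν y ≤ ν x := fun x y h =>
    not_lt.1 (wf.wf.not_lt_min {z | Relation.ReflTransGen R z y} ((h1 x).tail h))
  let J := Set.range ν
  let ν' : X → J := fun x => ⟨ν x, x, rfl⟩
  have hb : ∀ j : J, Nonempty (ℕ ≃ {x // ν' x = j}) := fun j => by
    obtain ⟨_, x, rfl⟩ := j
    have c : Countable {y // ν' y = ⟨ν x, x, rfl⟩} :=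
      ((countable_rtg R hR (ν x)).mono fun y (hy : ν' y = _) => by
        have : ν y = ν x := congrArg Subtype.val hy
        exact this ▸ h1 y).to_subtype
    have i : Infinite {y // ν' y = ⟨ν x, x, rfl⟩} := Infinite.of_injective
      (fun m : ℕ => (⟨E0 ((E0.symm x).1, m), Subtype.ext (le_antisymm (h2 _ _ (Or.inr ⟨m, rfl⟩))
        (h2 _ _ (Or.inr ⟨(E0.symm x).2, by simp⟩)))⟩ : {y // ν' y = ⟨ν x, x, rfl⟩}))
      fun a b h => congrArg Prod.snd (E0.injective (congrArg Subtype.val h))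
    exact nonempty_equiv_of_countable
  let E : J × ℕ ≃ X := ((Equiv.sigmaEquivProd J ℕ).symm.trans
    (Equiv.sigmaCongrRight fun j => (hb j).some)).trans (Equiv.sigmaFiberEquiv ν')
  have hE : ∀ x, (E.symm x).1 = ν' x := fun x => rfl
  refine ⟨J, inferInstance, inferInstance, ⟨ν' (Classical.arbitrary X)⟩, E, fun n x => ⟨?_, ?_⟩⟩
  · exact sub_mono (fun y hy => h2 x y (Or.inl ⟨n, Or.inl hy⟩)) (sp2 _)
  · exact sub_mono (fun y hy => h2 x y (Or.inl ⟨n, Or.inr hy⟩)) (sp2 _)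

variable {J : Type} [LinearOrder J]

lemma chain (E : J × ℕ ≃ X) (φ : ℕ → Au X)
    (hφ : ∀ n x, φ n (of x) ∈ sub {y | (E.symm y).1 ≤ (E.symm x).1} ∧
        (φ n)⁻¹ (of x) ∈ sub {y | (E.symm y).1 ≤ (E.symm x).1}) :
    ∃ t : J → ℕ → ℕ, (∀ j, StrictMono (t j)) ∧ (∀ j, t j 0 = 0) ∧ ∀ j i, ∀ n ≤ i,
      ∀ x ∈ Ds E j (t j i), φ n (of x) ∈ sub (Ds E j (t j (i + 1))) ∧
        (φ n)⁻¹ (of x) ∈ sub (Ds E j (t j (i + 1))) := by
  have hb : ∀ j w, ∃ M, w ∈ sub {y | (E.symm y).1 ≤ j} → w ∈ sub (Ds E j M) := fun j w => by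
    by_cases hw : w ∈ sub {y | (E.symm y).1 ≤ j}
    · obtain ⟨T, h1, h2, h3⟩ := exists_fin hw
      obtain ⟨M, hM⟩ := (h1.image fun y => (E.symm y).2).bddAbove
      exact ⟨M + 1, fun _ => sub_mono (fun y hy => (h2 hy).lt_or_eq.imp_right fun h =>
        ⟨h, Nat.lt_succ_of_le (hM ⟨y, hy, rfl⟩)⟩) h3⟩
    · exact ⟨0, fun h => absurd h hw⟩
  choose bd hbd using hb
  have hn : ∀ j i M, ∃ M', M < M' ∧ ∀ n ≤ i, ∀ x ∈ Ds E j M,
      φ n (of x) ∈ sub (Ds E j M') ∧ (φ n)⁻¹ (of x) ∈ sub (Ds E j M') := fun j i M => by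
    let F : ℕ × ℕ → ℕ := fun p => bd j (φ p.1 (of (E (j, p.2)))) + bd j ((φ p.1)⁻¹ (of (E (j, p.2))))
    obtain ⟨B, hB⟩ := (((Set.finite_le_nat i).prod (Set.finite_lt_nat M)).image F).bddAbove
    refine ⟨M + 1 + B, by omega, fun n hn x hx => ?_⟩
    rcases hx with hx | ⟨h1, h2⟩
    · exact ⟨sub_mono (fun y (hy : _ ≤ _) => Or.inl (hy.trans_lt hx)) (hφ n x).1,
        sub_mono (fun y (hy : _ ≤ _) => Or.inl (hy.trans_lt hx)) (hφ n x).2⟩
    · have e : E (j, (E.symm x).2) = x := by rw [← h1]; simp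
      have : F (n, (E.symm x).2) ≤ B := hB ⟨(n, (E.symm x).2), ⟨hn, h2⟩, rfl⟩
      simp only [F, e] at this
      exact ⟨sub_mono (Ds_mono E j (by omega)) (hbd j _ (h1 ▸ (hφ n x).1)),
        sub_mono (Ds_mono E j (by omega)) (hbd j _ (h1 ▸ (hφ n x).2))⟩
  choose nx n1 n2 using hn
  let t : J → ℕ → ℕ := fun j i => Nat.rec 0 (fun i M => nx j i M) i
  have e : ∀ j i, t j (i + 1) = nx j i (t j i) := fun j i => rfl
  refine ⟨t, fun j => strictMono_nat_of_lt_succ fun i => ?_, fun j => rfl, fun j i => ?_⟩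
  · rw [e]; exact n1 j i _
  · rw [e]; exact n2 j i _

lemma factor [WellFoundedLT J] (E : J × ℕ ≃ X) (t : J → ℕ → ℕ) (ht : ∀ j, StrictMono (t j))
    (h0 : ∀ j, t j 0 = 0) (δ : ℕ → Au X) (hδ0 : δ 0 = 1) (hδ1 : ∀ i, ∃ i' ≥ i, δ (i' + 1) = 1)
    (hδ2 : ∀ i j, Pres (δ i) (Ds E j 0))
    (hδ3 : ∀ i x, δ i (of x) ∈ sub {y | (E.symm y).1 ≤ (E.symm x).1})
    (hδ4 : ∀ i j, ∀ x ∈ Ds E j (t j i), ((δ (i + 1))⁻¹ * δ i) (of x) ∈ sub (Ds E j (t j (i + 1)))) :
    ∃ α : Au X, (∀ j, Pres α (Ds E j 0)) ∧ ∀ j i, Pres ((δ (i + 1))⁻¹ * α) (Ds E j (t j (i + 1))) := by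
  obtain ⟨k, k1, k2, k3⟩ := levels E t ht h0
  let V : J → ℕ → Subgroup (FreeGroup X) := fun j i =>
    (sub (Ds E j (t j i))).comap (δ i)⁻¹.toMonoidHom
  have hV : ∀ j i, Maps (δ i)⁻¹ (V j i) (sub (Ds E j (t j i))) := fun j i w => Iff.rfl
  have hV' : ∀ j i, Maps (δ i) (sub (Ds E j (t j i))) (V j i) := fun j i => (hV j i).inv
  have v1 : ∀ j, Monotone (V j) := fun j => monotone_nat_of_le_succ fun i w hw => by
    have := map_mem ((δ (i + 1))⁻¹ * δ i).toMonoidHom (hδ4 i j) hw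
    simpa [V] using this
  have v0 : ∀ j, V j 0 = sub (Ds E j 0) := fun j => by ext w; simp [V, hδ0, h0]
  have v2 : ∀ j j' i, j < j' → V j i ≤ sub (Ds E j' 0) := fun j j' i h w hw => by
    have := map_mem (δ i).toMonoidHom (K := sub (Ds E j' 0)) (S := Ds E j (t j i))
      (fun x hx => sub_mono (fun y (hy : _ ≤ _) => Or.inl
        (hx.elim (fun a => (hy.trans_lt a).trans h) fun a => (hy.trans a.1.le).trans_lt h))
        (hδ3 i x)) hw
    simpa using this
  have v3 : ∀ x, ∃ i, of x ∈ V (E.symm x).1 (i + 1) := fun x => by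
    obtain ⟨i, h1, h2⟩ := hδ1 (E.symm x).2
    refine ⟨i, ?_⟩
    simp only [V, h2, inv_one, Subgroup.mem_comap]
    exact of_mem (Or.inr ⟨rfl, (Nat.lt_succ_of_le h1).trans_le (ht _).le_apply⟩)
  have hst : ∀ j i, ∃ a : Au X, Maps a (sub (Ds E j (t j i))) (V j i) ∧
      Maps a (sub (Ds E j (t j (i + 1)))) (V j (i + 1)) := fun j i => by
    obtain ⟨a, a1, a2⟩ := step (Ds E j 0) (Ds E j (t j i)) (Ds E j (t j (i + 1)))
      (Ds_mono E j (Nat.zero_le _))
      (((Set.finite_lt_nat (t j i)).image fun c => E (j, c)).subset (by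
        rintro x ⟨h1 | h1, h2⟩
        · exact absurd (Or.inl h1) h2
        · exact ⟨_, h1.2, by rw [← h1.1]; simp⟩))
      (Ds_mono E j (ht j (Nat.lt_succ_self i)).le) ((δ (i + 1))⁻¹ * δ i)
      ((hδ2 _ j).inv.mul (hδ2 _ j)) (hδ4 i j)
    refine ⟨δ (i + 1) * a, fun w => ?_, (hV' j _).mul a2⟩
    have e : ∀ w ∈ sub (Ds E j (t j i)), (δ (i + 1) * a) w = δ i w := fun w hw =>
      eq_on (δ (i + 1) * a).toMonoidHom (δ i).toMonoidHom (fun x hx => by simp [a1 x hx]) hw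
    constructor
    · intro h
      have h1 : (δ i)⁻¹ ((δ (i + 1) * a) w) ∈ sub (Ds E j (t j i)) := h
      have h2 := e _ h1
      rw [MulAut.apply_inv_self] at h2
      exact (δ (i + 1) * a).injective h2 ▸ h1
    · intro h
      rw [e w h]; exact (hV' j i w).2 h
  choose a a1 a2 using hst
  obtain ⟨α, -, hα⟩ := tri (fun x => toLex ((E.symm x).1, k x))
    (fun p => a (ofLex p).1 (ofLex p).2) (fun p => V (ofLex p).1 ((ofLex p).2 + 1))
    (fun p => V (ofLex p).1 (ofLex p).2)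
    (fun p q h => by
      rcases Prod.Lex.lt_iff.1 h with h | h
      · exact (v2 _ _ _ h).trans ((v0 _).ge.trans (v1 _ (Nat.zero_le _)))
      · rw [h.1]; exact v1 _ h.2)
    (fun p K h => by
      rcases hp : (ofLex p).2 with _ | i
      · rw [v0]
        refine sub_le fun x hx => ?_
        obtain ⟨i, hi⟩ := v3 x
        exact h (toLex ((E.symm x).1, i)) (Prod.Lex.lt_iff.2 (Or.inl (by simpa [Ds] using hx))) hi
      · exact h (toLex ((ofLex p).1, i)) (Prod.Lex.lt_iff.2 (Or.inr ⟨rfl, by simp [hp]⟩)))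
    (fun p => by rw [k2]; exact a1 _ _) (fun p => by rw [k3]; exact a2 _ _)
    (fun x => by obtain ⟨i, hi⟩ := v3 x; exact ⟨toLex ((E.symm x).1, i), hi⟩)
  have hα' : ∀ j i, Maps α (sub (Ds E j (t j (i + 1)))) (V j (i + 1)) := fun j i => by
    have := hα (toLex (j, i))
    rwa [k3] at this
  refine ⟨α, fun j => Maps.of_gen (fun x hx => ?_) (fun x hx => ?_),
    fun j i => (hV j _).mul (hα' j i)⟩
  · have hx' : (E.symm x).1 < j := by simpa [Ds] using hx
    exact v2 _ _ _ hx' ((hα' _ (E.symm x).2 _).2 (of_mem (Or.inr ⟨rfl, (ht _).le_apply⟩)))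
  · have hx' : (E.symm x).1 < j := by simpa [Ds] using hx
    obtain ⟨i, hi⟩ := v3 x
    exact sub_mono (Ds_lt E hx' _ _) (((hα' _ i).inv _).2 hi)

theorem dec [Infinite X] [Countable I] [Infinite I] (i0 : I) (K : Subgroup (ℕ → Au X))
    (hK : ∀ s, Roomy I i0 s → s ∈ K) (φ : ℕ → Au X) : φ ∈ K := by
  obtain ⟨J, _, _, _, E, hφ⟩ := blocks φ
  obtain ⟨t, ht, h0, h1⟩ := chain E φ hφ
  have p0 : ∀ n j, Pres (φ n) (Ds E j 0) := fun n j => by
    have : ∀ x ∈ Ds E j 0, {y | (E.symm y).1 ≤ (E.symm x).1} ⊆ Ds E j 0 :=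
      fun x hx y (hy : _ ≤ _) => Or.inl (hy.trans_lt (by simpa [Ds] using hx))
    exact Maps.of_gen (fun x hx => sub_mono (this x hx) (hφ n x).1)
      (fun x hx => sub_mono (this x hx) (hφ n x).2)
  have hex : ∀ n, ∃ α : Au X, (∀ j, Pres α (Ds E j 0)) ∧ ∀ j i,
      Pres ((if (n + i + 1) % 2 = 1 then φ n else 1)⁻¹ * α) (Ds E j (t j (n + i + 1))) := fun n => by
    obtain ⟨α, a1, a2⟩ := factor E (fun j i => t j (if i = 0 then 0 else n + i))
      (fun j => (ht j).comp (strictMono_nat_of_lt_succ fun i => by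
        by_cases h : i = 0 <;> simp [h]))
      (fun j => by simp [h0]) (fun i => if i ≠ 0 ∧ (n + i) % 2 = 1 then φ n else 1) (by simp)
      (fun i => ⟨n + 2 * i + 1, by omega, if_neg (by omega)⟩)
      (fun i j => by split_ifs; exacts [p0 n j, Maps.one _])
      (fun i x => by split_ifs; exacts [(hφ n x).1, of_mem (le_refl (E.symm x).1)])
      (fun i j x hx => by
        by_cases hi : i = 0
        · subst hi
          simp only [if_true, h0] at hx
          refine sub_mono (Ds_mono E j (Nat.zero_le _)) ?_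
          split_ifs with b c c
          · simp at c
          · simpa using ((p0 n j).inv _).2 (of_mem hx)
          · simp at c
          · simpa using of_mem hx
        · simp only [hi, if_false] at hx
          simp only [Nat.succ_ne_zero, if_false, ← add_assoc]
          split_ifs with b c c
          · omega
          · simpa using (h1 j _ n (by omega) x hx).2
          · simpa using (h1 j _ n (by omega) x hx).1
          · omega)
    exact ⟨α, a1, fun j i => by simpa [add_assoc] using a2 j i⟩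
  choose α a1 a2 using hex
  have b1 := decC i0 K hK E (fun j i => t j (2 * i))
    (fun j => (ht j).comp fun a b h => by omega) (fun j => h0 j) α (fun n => n + 1) a1
    (fun n j i hi => by
      have := a2 n j (2 * i - n - 1)
      have e : n + (2 * i - n - 1) + 1 = 2 * i := by omega
      rw [e, if_neg (by omega)] at this
      simpa using this)
  have b2 := decC i0 K hK E (fun j i => t j (2 * i - 1))
    (fun j => (ht j).comp fun a b h => by omega) (fun j => h0 j) (φ⁻¹ * α) (fun n => n + 1)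
    (fun n j => (p0 n j).inv.mul (a1 n j))
    (fun n j i hi => by
      have := a2 n j (2 * i - 1 - n - 1)
      have e : n + (2 * i - 1 - n - 1) + 1 = 2 * i - 1 := by omega
      rw [e, if_pos (by omega)] at this
      exact this)
  simpa using mul_mem b1 (inv_mem b2)

end Pool.Agent.H.MP_0c10a3_al
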