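import Mathlib
import Pool.Agent.H.MP_0c10a3_al.Ext

namespace Pool.Agent.H.MP_0c10a3_al
open FreeGroup (of lift lift_apply_of)

lemma letters {T : Type} [DecidableEq T] {P : Set T} {w : FreeGroup T} (hw : w ∈ sub P) :
    ∀ a ∈ w.toWord, a.1 ∈ P := by
  induction hw using Subgroup.closure_induction with
  | mem x hx => obtain ⟨y, hy, rfl⟩ := hx; simpa using hy
  | one => simp
  | mul x y _ _ hx hy =>
    intro a ha
    rcases List.mem_append.1 ((FreeGroup.toWord_mul_sublist x y).subset ha) with h | h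
    · exact hx a h
    · exact hy a h
  | inv x _ hx =>
    intro a ha
    rw [FreeGroup.toWord_inv, FreeGroup.invRev, List.mem_reverse, List.mem_map] at ha
    obtain ⟨b, hb, rfl⟩ := ha
    exact hx b hb

lemma malfree {T : Type} (P : Set T) (u g : FreeGroup T) (hg : g ∈ sub P) (h1 : g ≠ 1)
    (h : u⁻¹ * g * u ∈ sub P) : u ∈ sub P := by
  classical
  have key : ∀ L : List (T × Bool), FreeGroup.IsReduced L → ∀ g ∈ sub P, g ≠ 1 →
      (FreeGroup.mk L)⁻¹ * g * FreeGroup.mk L ∈ sub P → FreeGroup.mk L ∈ sub P := by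
    intro L
    induction L with
    | nil => intro _ _ _ _ _; exact one_mem _
    | cons a L ih =>
      intro hL g hg h1 h
      by_cases ha : a.1 ∈ P
      · have e : FreeGroup.mk (a :: L) = FreeGroup.mk [a] * FreeGroup.mk L := rfl
        have hm : FreeGroup.mk [a] ∈ sub P := by
          obtain ⟨x, b⟩ := a
          cases b
          · exact inv_mem (of_mem ha)
          · exact of_mem ha
        rw [e] at h ⊢
        refine mul_mem hm (ih (List.isChain_cons.1 hL).2
          ((FreeGroup.mk [a])⁻¹ * g * FreeGroup.mk [a]) (mul_mem (mul_mem (inv_mem hm) hg) hm)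
          (fun h' => h1 (by
            have : g = FreeGroup.mk [a] * ((FreeGroup.mk [a])⁻¹ * g * FreeGroup.mk [a]) *
              (FreeGroup.mk [a])⁻¹ := by group
            rw [this, h', mul_one, mul_inv_cancel])) (by simpa only [mul_assoc, mul_inv_rev] using h))
      · exfalso
        have hW := letters hg
        have hne : g.toWord ≠ [] := fun h => h1 (FreeGroup.toWord_eq_nil_iff.1 h)
        have hinv : FreeGroup.IsReduced (FreeGroup.invRev (a :: L)) := by
          rw [FreeGroup.isReduced_iff_reduce_eq, FreeGroup.reduce_invRev, hL.reduce_eq]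
        have hred : FreeGroup.IsReduced (FreeGroup.invRev (a :: L) ++ (g.toWord ++ a :: L)) := by
          refine List.IsChain.append hinv (List.IsChain.append FreeGroup.isReduced_toWord hL ?_) ?_
          · intro x hx y hy hxy
            simp only [List.head?_cons, Option.mem_def, Option.some.injEq] at hy
            exact absurd (hy ▸ hxy ▸ hW x (List.mem_of_mem_getLast? hx)) ha
          · intro x hx y hy hxy
            rw [List.head?_append_of_ne_nil _ hne] at hy
            have : x.1 = a.1 := by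
              simp [FreeGroup.invRev] at hx
              rw [← hx]
            exact absurd (this ▸ hxy ▸ hW y (List.mem_of_mem_head? hy)) ha
        have e : (FreeGroup.mk (a :: L))⁻¹ * g * FreeGroup.mk (a :: L) =
            FreeGroup.mk (FreeGroup.invRev (a :: L) ++ (g.toWord ++ a :: L)) := by
          rw [← FreeGroup.mul_mk, ← FreeGroup.mul_mk, FreeGroup.mk_toWord, FreeGroup.inv_mk,
            mul_assoc]
        have := letters h a (by rw [e, FreeGroup.toWord_mk, hred.reduce_eq]; simp)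
        exact ha this
  have := key u.toWord FreeGroup.isReduced_toWord g hg h1 (by rwa [FreeGroup.mk_toWord])
  rwa [FreeGroup.mk_toWord] at this

lemma dat_of_mal {Λ Φ : Type} [Group Λ] [Group Φ] (ι : Φ →* Λ) (hi : Function.Injective ι)
    (mal : ∀ l g, g ≠ 1 → l⁻¹ * ι g * l ∈ ι.range → l ∈ ι.range) :
    ∃ D : Dat Λ Φ (Λ ⧸ ι.range), D.ι = ι := by
  classical
  let I := Λ ⧸ ι.range
  let i0 : I := ((1 : Λ) : I)
  have hst : ∀ l l' : Λ, l • i0 = l' • i0 ↔ l⁻¹ * l' ∈ ι.range := fun l l' => by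
    change ((l * 1 : Λ) : I) = ((l' * 1 : Λ) : I) ↔ _
    rw [QuotientGroup.eq]; simp
  have hout : ∀ i : I, i.out • i0 = i := fun i => by
    change ((i.out * 1 : Λ) : I) = i
    simp
  have hfix : ∀ g, ι g • i0 = i0 := fun g => by
    have := (hst 1 (ι g)).2 (by simp)
    rw [one_smul] at this; exact this.symm
  have hfree : ∀ g (i : I), i ≠ i0 → ι g • i = i → g = 1 := fun g i hi h => by
    by_contra hg
    rw [← hout i, ← mul_smul, eq_comm, hst, ← mul_assoc] at h
    obtain ⟨k, hk⟩ := mal _ g hg h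
    exact hi (by rw [← hout i, ← hk, hfix])
  have hne : ∀ g (i : I), i ≠ i0 → ι g • i ≠ i0 := fun g i hi h =>
    hi (by rw [← hfix g] at h; exact smul_left_cancel _ h)
  obtain ⟨o, n, h1, h2⟩ := orb ((MulAction.toPermHom Λ I).comp ι)
  replace h1 : ∀ i, ι (n i) • o i = i := h1
  replace h2 : ∀ g i, o (ι g • i) = o i := h2
  let lam : I → Λ := fun i => if i = i0 then 1 else ι (n i) * (o i).out
  have hl : ∀ i, lam i • i0 = i := fun i => by
    by_cases h : i = i0
    · simp [lam, h]
    · simp [lam, h, mul_smul, hout, h1]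
  have hc : ∀ l i, ∃ c, l * lam i = lam (l • i) * ι c := fun l i => by
    obtain ⟨c, hc⟩ := (hst (lam (l • i)) (l * lam i)).1 (by rw [mul_smul, hl, hl])
    exact ⟨c, by rw [hc]; group⟩
  choose coc hc using hc
  refine ⟨⟨ι, i0, lam, coc, hi, by simp [lam], hl, hc, hfix, fun g i hi => ?_⟩, rfl⟩
  have ho : o i ≠ i0 := fun h => hi (by rw [← h1 i, h, hfix])
  have : (g * n i)⁻¹ * n (ι g • i) = 1 := hfree _ _ ho (by
    rw [map_mul, mul_smul, map_inv, inv_smul_eq_iff, map_mul, mul_smul, h1 i, ← h2 g i, h1])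
  simp only [lam, hi, hne g i hi, if_false, h2, ← inv_mul_eq_one.1 this, map_mul, mul_assoc]

abbrev TT := ℤ × Bool

def shp : Multiplicative ℤ →* Equiv.Perm TT :=
  MonoidHom.mk' (fun k => Equiv.prodCongr (Equiv.addRight k.toAdd) (Equiv.refl _)) fun k l => by
    ext x <;> simp [add_comm, add_left_comm]

def sh : Multiplicative ℤ →* Au TT := permHom.comp shp

lemma sh_of (k : Multiplicative ℤ) (i : ℤ) (b : Bool) : sh k (of (i, b)) = of (i + k.toAdd, b) := rfl

abbrev Lam := FreeGroup TT ⋊[sh] Multiplicative ℤ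

def jj : FreeGroup ℕ →* FreeGroup TT := lift fun n => of ((2 : ℤ) ^ n, false) * of (-(2 : ℤ) ^ n, true)

lemma pw_inj {n m : ℕ} (h : (2 : ℤ) ^ n = 2 ^ m) : n = m :=
  Nat.pow_right_injective (le_refl 2) (by exact_mod_cast h)

lemma pw_sum {n n' m : ℕ} (h : (2 : ℤ) ^ n + 2 ^ n' = 2 * 2 ^ m) : n = m := by
  have p : ∀ k : ℕ, (0 : ℤ) < 2 ^ k := fun k => by positivity
  have q : ∀ {a b : ℕ}, a < b → 2 * (2 : ℤ) ^ a ≤ 2 ^ b := fun {a b} hab => by
    rw [← pow_succ']; exact pow_le_pow_right₀ (by norm_num) hab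
  rcases lt_trichotomy n m with h1 | h1 | h1
  · rcases lt_trichotomy n' m with h2 | h2 | h2
    · have := q h1; have := q h2; have := p m; omega
    · have := q h1; have := p n; subst h2; omega
    · have := q h2; have := p n; omega
  · exact h1
  · have := q h1; have := p n'; omega

lemma kill (k : ℤ) (hk : k ≠ 0) : ∃ π : FreeGroup TT →* FreeGroup ℕ,
    π.comp jj = 1 ∧ ∀ g, π (sh (Multiplicative.ofAdd k) (jj g)) = g := by
  classical
  let π : FreeGroup TT →* FreeGroup ℕ := lift fun t =>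
    if t.2 then (if h : ∃ m : ℕ, t.1 = -2 ^ m + k ∧ ∃ n : ℕ, 2 ^ m + k = 2 ^ n then of h.choose
      else 1)
    else (if h : ∃ m : ℕ, t.1 = 2 ^ m + k ∧ ¬ ∃ n : ℕ, 2 ^ m + k = 2 ^ n then of h.choose else 1)
  refine ⟨π, ?_, fun g => ?_⟩
  · ext n
    have a : ¬ ∃ m : ℕ, (2 : ℤ) ^ n = 2 ^ m + k ∧ ¬ ∃ n : ℕ, 2 ^ m + k = 2 ^ n :=
      fun ⟨m, h1, h2⟩ => h2 ⟨n, h1.symm⟩
    have b : ¬ ∃ m : ℕ, -(2 : ℤ) ^ n = -2 ^ m + k ∧ ∃ n : ℕ, 2 ^ m + k = 2 ^ n := by
      rintro ⟨m, h1, n', h2⟩
      have : n' = m := pw_sum (n' := n) (by omega)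
      subst this
      omega
    simp only [MonoidHom.comp_apply, jj, lift_apply_of, map_mul, π, MonoidHom.one_apply]
    simp only [Bool.false_eq_true, if_false, if_true, dif_neg a, dif_neg b, mul_one]
  · have : (π.comp (sh (Multiplicative.ofAdd k)).toMonoidHom).comp jj = MonoidHom.id _ := by
      ext m
      simp only [MonoidHom.comp_apply, jj, lift_apply_of, map_mul, π, MulEquiv.coe_toMonoidHom,
        sh_of, toAdd_ofAdd, Bool.false_eq_true, if_false, if_true, MonoidHom.id_apply]
      by_cases h : ∃ n : ℕ, 2 ^ m + k = 2 ^ n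
      · have a : ¬ ∃ m' : ℕ, (2 : ℤ) ^ m + k = 2 ^ m' + k ∧ ¬ ∃ n : ℕ, 2 ^ m' + k = 2 ^ n :=
          fun ⟨m', h1, h2⟩ => h2 (h1 ▸ h)
        have b : ∃ m' : ℕ, -(2 : ℤ) ^ m + k = -2 ^ m' + k ∧ ∃ n : ℕ, 2 ^ m' + k = 2 ^ n :=
          ⟨m, rfl, h⟩
        rw [dif_neg a, dif_pos b, one_mul]
        congr 1
        exact pw_inj (by have := b.choose_spec.1; omega)
      · have a : ∃ m' : ℕ, (2 : ℤ) ^ m + k = 2 ^ m' + k ∧ ¬ ∃ n : ℕ, 2 ^ m' + k = 2 ^ n :=
          ⟨m, rfl, h⟩
        have b : ¬ ∃ m' : ℕ, -(2 : ℤ) ^ m + k = -2 ^ m' + k ∧ ∃ n : ℕ, 2 ^ m' + k = 2 ^ n := by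
          rintro ⟨m', h1, h2⟩
          have : m' = m := pw_inj (by omega)
          exact h (this ▸ h2)
        rw [dif_pos a, dif_neg b, mul_one]
        congr 1
        exact pw_inj (by have := a.choose_spec.1; omega)
    exact DFunLike.congr_fun this g

lemma jj_inj : Function.Injective jj := by
  obtain ⟨π, -, h⟩ := kill 1 one_ne_zero
  intro a b hab
  rw [← h a, hab, h]

lemma jj_mal (u : FreeGroup TT) (g : FreeGroup ℕ) (hg : g ≠ 1) (h : u⁻¹ * jj g * u ∈ jj.range) :
    u ∈ jj.range := by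
  classical
  let P : Set TT := {t | t.2 = false ∧ ∃ n : ℕ, t.1 = 2 ^ n}
  let β : FreeGroup TT →* FreeGroup TT :=
    lift fun t => if t ∈ P then of t * (of (-t.1, true))⁻¹ else of t
  let β' : FreeGroup TT →* FreeGroup TT :=
    lift fun t => if t ∈ P then of t * of (-t.1, true) else of t
  have hP : ∀ i, (i, true) ∉ P := fun i h => by simpa using h.1
  have hb : β'.comp β = MonoidHom.id _ := by
    refine FreeGroup.ext_hom _ _ fun t => ?_
    by_cases h : t ∈ P <;> simp [β, β', h, hP]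
  have h1 : ∀ g, β (jj g) ∈ sub P := fun g =>
    map_mem (β.comp jj) (S := Set.univ) (fun n _ => by
      have : ((2 : ℤ) ^ n, false) ∈ P := ⟨rfl, n, rfl⟩
      simpa [jj, β, this, hP] using of_mem this) (mem_univ' g)
  have h2 : ∀ w ∈ sub P, β' w ∈ jj.range := fun w hw =>
    map_mem β' (by
      rintro ⟨i, b⟩ ht
      obtain ⟨h1, n, h2⟩ := id ht
      simp only at h1 h2
      subst h1 h2
      exact ⟨of n, by simp [jj, β', ht]⟩) hw
  have hinj : ∀ w, β' (β w) = w := fun w => DFunLike.congr_fun hb w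
  obtain ⟨g', hg'⟩ := h
  have := malfree P (β u) (β (jj g)) (h1 g)
    (fun h => hg (jj_inj (by rw [← hinj (jj g), h, map_one, map_one])))
    (by rw [← map_inv, ← map_mul, ← map_mul, ← hg']; exact h1 g')
  exact hinj u ▸ h2 _ this

def io : FreeGroup ℕ →* Lam := SemidirectProduct.inl.comp jj

lemma io_mal (l : Lam) (g : FreeGroup ℕ) (hg : g ≠ 1) (h : l⁻¹ * io g * l ∈ io.range) :
    l ∈ io.range := by
  obtain ⟨g', hg'⟩ := h
  have e : io g * l = l * io g' := by rw [hg']; group
  have e2 : jj g * l.left = l.left * sh l.right (jj g') := by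
    simpa [io] using congrArg SemidirectProduct.left e
  by_cases hk : l.right = 1
  · obtain ⟨k, hk'⟩ := jj_mal l.left g hg ⟨g', by
      rw [mul_assoc, e2, hk]; simp⟩
    exact ⟨k, by ext <;> simp [io, hk, hk']⟩
  · exfalso
    obtain ⟨π, h1, h2⟩ := kill l.right.toAdd (fun h => hk (by simpa using h))
    have a := congrArg π e2
    have b : π (jj g) = 1 := DFunLike.congr_fun h1 g
    rw [map_mul, map_mul, b, one_mul] at a
    have c : g' = 1 := by
      rw [← h2 g']; exact mul_eq_left.1 a.symm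
    rw [c, map_one] at e
    exact hg (jj_inj (SemidirectProduct.inl_injective (φ := sh)
      (by simpa [io] using e)))

def chi0 : FreeGroup TT →* Multiplicative ℤ :=
  lift fun t => if t.2 then Multiplicative.ofAdd (-1) else Multiplicative.ofAdd 1

def chi : Lam →* Multiplicative ℤ := SemidirectProduct.lift chi0 1 fun k => by
  refine FreeGroup.ext_hom _ _ fun t => ?_
  obtain ⟨i, b⟩ := t
  simp [chi0, sh_of]

lemma chi_io (g : FreeGroup ℕ) : chi (io g) = 1 := by
  have : chi.comp io = 1 := by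
    ext n
    simp [chi, io, jj, chi0]
  exact DFunLike.congr_fun this g

theorem exists_dat : ∃ (Λ I : Type) (_ : Group Λ) (_ : MulAction Λ I)
    (D : Dat Λ (FreeGroup ℕ) I), Countable I ∧ Infinite I ∧
    (∀ n, ∃ u v : Λ, D.ι (of n) = u * v ∧ (∀ (m : ℤ) (i : I), u ^ m • i = i → m = 0) ∧
      ∀ (m : ℤ) (i : I), v ^ m • i = i → m = 0) ∧
    ∃ S : Set Λ, S.Finite ∧ ∀ n, D.ι (of n) ∈ Subgroup.closure S := by
  obtain ⟨D, hD⟩ := dat_of_mal io (SemidirectProduct.inl_injective.comp jj_inj) io_mal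
  have hfree : ∀ u : Lam, (chi u).toAdd ≠ 0 → ∀ (m : ℤ) (i : Lam ⧸ io.range),
      u ^ m • i = i → m = 0 := fun u hu m i h => by
    obtain ⟨l, rfl⟩ := QuotientGroup.mk_surjective i
    change ((u ^ m * l : Lam) : Lam ⧸ io.range) = l at h
    rw [eq_comm, QuotientGroup.eq] at h
    obtain ⟨g, hg⟩ := h
    have := chi_io g
    rw [hg, map_mul, map_mul, map_inv, map_zpow, mul_comm (chi u ^ m), inv_mul_cancel_left] at this
    have := congrArg Multiplicative.toAdd this
    simpa [hu] using this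
  have c1 : ∀ i, (chi (SemidirectProduct.inl (of (i, false)))).toAdd ≠ 0 := by simp [chi, chi0]
  have c2 : ∀ i, (chi (SemidirectProduct.inl (of (i, true)))).toAdd ≠ 0 := by simp [chi, chi0]
  have : Countable Lam := SemidirectProduct.equivProd.countable_iff.2 inferInstance
  refine ⟨Lam, Lam ⧸ io.range, inferInstance, inferInstance, D,
    QuotientGroup.mk_surjective.countable, ?_, fun n => ?_,
    {SemidirectProduct.inl (of (0, false)), SemidirectProduct.inl (of (0, true)),
      SemidirectProduct.inr (Multiplicative.ofAdd 1)}, Set.toFinite _, fun n => ?_⟩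
  · refine Infinite.of_injective
      (fun m : ℤ => (SemidirectProduct.inl (of (0, false)) : Lam) ^ m • D.i0) fun m m' h => ?_
    have := hfree _ (c1 0) (-m + m') D.i0 (by
      rw [zpow_add, mul_smul, zpow_neg, inv_smul_eq_iff]; exact h.symm)
    omega
  · exact ⟨_, _, by rw [hD]; simp only [io, jj, MonoidHom.comp_apply, lift_apply_of, map_mul],
      hfree _ (c1 (2 ^ n)), hfree _ (c2 (-2 ^ n))⟩
  · rw [hD]
    have key : ∀ i b, (SemidirectProduct.inl (of (i, b)) : Lam) ∈ Subgroup.closure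
        ({SemidirectProduct.inl (of (0, false)), SemidirectProduct.inl (of (0, true)),
          SemidirectProduct.inr (Multiplicative.ofAdd 1)} : Set Lam) := fun i b => by
      have e : of (i, b) = sh (Multiplicative.ofAdd i) (of (0, b)) := by simp [sh_of]
      have e2 : Multiplicative.ofAdd i = Multiplicative.ofAdd (1 : ℤ) ^ i := by
        rw [← ofAdd_zsmul]; simp
      rw [e, SemidirectProduct.inl_aut, map_inv, e2, map_zpow]
      refine mul_mem (mul_mem (zpow_mem (Subgroup.subset_closure (by simp)) _)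
        (Subgroup.subset_closure ?_)) (inv_mem (zpow_mem (Subgroup.subset_closure (by simp)) _))
      cases b <;> simp
    simp only [io, jj, MonoidHom.comp_apply, lift_apply_of, map_mul]
    exact mul_mem (key _ _) (key _ _)

end Pool.Agent.H.MP_0c10a3_al
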