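import Mathlib
import Pool.Agent.H.MP_0c10a3_al.Dec
import Pool.Agent.H.MP_0c10a3_al.Mal

namespace Pool.Agent.H.MP_0c10a3_al
open FreeGroup (of lift lift_apply_of)

variable {X : Type}

theorem roomy_ext {Λ I Y J : Type} [Group Λ] [MulAction Λ I] [LinearOrder J] [WellFoundedLT J]
    (D : Dat Λ (FreeGroup ℕ) I) (e : Y × I ≃ X) (ν : Y → J) (s : ℕ → Au X)
    (hs : ∀ n, (∀ y i, i ≠ D.i0 → s n (of (e (y, i))) = of (e (y, i))) ∧
      (∀ j, Pres (s n) (Lo e ν j)) ∧ ∀ j, Pres (s n) (Hi e ν D.i0 j)) :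
    ∃ σ : Λ →* Au X, (∀ n, σ (D.ι (of n)) = s n * permHom (prm e 1 (MulAction.toPerm (D.ι (of n))))) ∧
      ∀ v : Λ, (∀ (n : ℤ) (i : I), v ^ n • i = i → n = 0) →
        ∃ β : Au X, σ v = β * permHom (prm e 1 (MulAction.toPerm v)) * β⁻¹ := by
  let ρ : Λ → Au X := fun l => permHom (prm e 1 (MulAction.toPerm l))
  have hρ : ∀ l y i, ρ l (of (e (y, i))) = of (e (y, l • i)) := fun l y i => by simp [ρ]
  have hρ' : ∀ l y i, (ρ l)⁻¹ (of (e (y, i))) = of (e (y, l⁻¹ • i)) := fun l y i => by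
    rw [MulAut.inv_apply, MulEquiv.symm_apply_eq, hρ, smul_inv_smul]
  have hne : ∀ g i, i ≠ D.i0 → D.ι g • i ≠ D.i0 := fun g i hi h =>
    hi (by rw [← D.fix g] at h; exact smul_left_cancel _ h)
  have r1 : ∀ l j, Pres (ρ l) (Lo e ν j) := fun l j => Maps.of_gen
    (fun x hx => by
      obtain ⟨⟨y, i⟩, rfl⟩ := e.surjective x
      rw [hρ]; exact of_mem (by simpa [Lo] using hx))
    (fun x hx => by
      obtain ⟨⟨y, i⟩, rfl⟩ := e.surjective x
      rw [hρ']; exact of_mem (by simpa [Lo] using hx))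
  have r2 : ∀ g j, Pres (ρ (D.ι g)) (Hi e ν D.i0 j) := fun g j => Maps.of_gen
    (fun x hx => by
      obtain ⟨⟨y, i⟩, rfl⟩ := e.surjective x
      rw [hρ]
      simp only [Hi, Set.mem_ofPred_eq, Equiv.symm_apply_apply] at hx
      exact of_mem (hx.imp (by simp) fun h => by simp [h.1, h.2, D.fix]))
    (fun x hx => by
      obtain ⟨⟨y, i⟩, rfl⟩ := e.surjective x
      rw [hρ', ← map_inv]
      simp only [Hi, Set.mem_ofPred_eq, Equiv.symm_apply_apply] at hx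
      exact of_mem (hx.imp (by simp) fun h => by simp only [h.2, D.fix]; simp [h.1]))
  let τ : FreeGroup ℕ →* Au X := lift fun n => s n * ρ (D.ι (of n))
  have hτ : ∀ g, (∀ j, Pres (τ g) (Lo e ν j)) ∧ (∀ j, Pres (τ g) (Hi e ν D.i0 j)) ∧
      ∀ y i, i ≠ D.i0 → τ g (of (e (y, i))) = of (e (y, D.ι g • i)) := by
    intro g
    induction g using FreeGroup.induction_on with
    | C1 => rw [map_one]; exact ⟨fun j => Maps.one _, fun j => Maps.one _, by simp⟩
    | of n =>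
      simp only [τ, lift_apply_of]
      exact ⟨fun j => ((hs n).2.1 j).mul (r1 _ j), fun j => ((hs n).2.2 j).mul (r2 _ j),
        fun y i hi => by rw [MulAut.mul_apply, hρ, (hs n).1 _ _ (hne _ _ hi)]⟩
    | inv_of n ih =>
      rw [map_inv]
      refine ⟨fun j => (ih.1 j).inv, fun j => (ih.2.1 j).inv, fun y i hi => ?_⟩
      rw [MulAut.inv_apply, MulEquiv.symm_apply_eq, ih.2.2 _ _ (hne _ _ hi), map_inv,
        smul_inv_smul]
    | mul a b ha hb =>
      rw [map_mul]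
      exact ⟨fun j => (ha.1 j).mul (hb.1 j), fun j => (ha.2.1 j).mul (hb.2.1 j), fun y i hi => by
        rw [MulAut.mul_apply, hb.2.2 _ _ hi, ha.2.2 _ _ (hne _ _ hi), map_mul, mul_smul]⟩
  obtain ⟨σ, h1, h2, h3⟩ := ext D e ν τ (fun g => (hτ g).1) (fun g => (hτ g).2.1)
    (fun g => (hτ g).2.2)
  exact ⟨σ, fun n => by rw [h1]; simp [τ, ρ],
    conj D e ν σ (fun g j => h1 g ▸ (hτ g).2.1 j) h2 h3⟩

lemma card_two (X : Type) [Infinite X] : Cardinal.mk (X × Bool) = Cardinal.mk X := by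
  have h : (2 : Cardinal) ≤ Cardinal.mk X :=
    (Cardinal.nat_lt_aleph0 2).le.trans (Cardinal.aleph0_le_mk X)
  simpa using Cardinal.mul_eq_left (Cardinal.aleph0_le_mk X) h two_ne_zero

lemma inv_model {X : Type} [Infinite X] (a : Equiv.Perm X) (h1 : a * a = 1) (h2 : ∀ x, a x ≠ x) :
    ∃ e : X × Bool ≃ X, ∀ x b, a (e (x, b)) = e (x, !b) := by
  classical
  let _ : LinearOrder X := linearOrderOfSTO WellOrderingRel
  have haa : ∀ x, a (a x) = x := fun x => DFunLike.congr_fun h1 x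
  let T := {x // x < a x}
  let f : T × Bool → X := fun p => if p.2 then a p.1.1 else p.1.1
  have hf : Function.Bijective f := by
    constructor
    · rintro ⟨⟨x, hx⟩, b⟩ ⟨⟨y, hy⟩, c⟩ h
      cases b <;> cases c <;> simp only [f, if_true, Bool.false_eq_true, if_false] at h
      · simp [h]
      · subst h; rw [haa] at hx; exact absurd hx hy.not_gt
      · subst h; rw [haa] at hy; exact absurd hx hy.not_gt
      · simp [a.injective h]
    · intro x
      rcases lt_or_gt_of_ne (h2 x) with h | h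
      · exact ⟨(⟨a x, by rwa [haa]⟩, true), by simp [f, haa]⟩
      · exact ⟨(⟨x, h⟩, false), by simp [f]⟩
  obtain ⟨g⟩ : Nonempty (X ≃ T) := by
    rw [← Cardinal.eq]
    have h := Cardinal.mk_congr (Equiv.ofBijective f hf)
    have : Infinite T := by
      by_contra hT
      rw [not_infinite_iff_finite] at hT
      exact not_finite_iff_infinite.2 ‹Infinite X› (Finite.of_surjective f hf.2)
    rw [← h, card_two]
  refine ⟨(g.prodCongr (Equiv.refl _)).trans (Equiv.ofBijective f hf), fun x b => ?_⟩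
  cases b <;> simp [f, haa]

lemma inv_conj {X : Type} [Infinite X] (a b : Equiv.Perm X) (a1 : a * a = 1) (a2 : ∀ x, a x ≠ x)
    (b1 : b * b = 1) (b2 : ∀ x, b x ≠ x) : ∃ c, a = c * b * c⁻¹ := by
  obtain ⟨e, he⟩ := inv_model a a1 a2
  obtain ⟨e', he'⟩ := inv_model b b1 b2
  refine ⟨e'.symm.trans e, eq_mul_inv_of_mul_eq (Equiv.ext fun x => ?_)⟩
  obtain ⟨⟨y, c⟩, rfl⟩ := e'.surjective x
  simp [he, he']

lemma inv_ex (X : Type) [Infinite X] : ∃ a : Equiv.Perm X, a * a = 1 ∧ ∀ x, a x ≠ x := by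
  obtain ⟨e⟩ : Nonempty (X × Bool ≃ X) := Cardinal.eq.1 (card_two X)
  refine ⟨prm e 1 ⟨not, not, Bool.not_not, Bool.not_not⟩, Equiv.ext fun x => ?_, fun x => ?_⟩
  · obtain ⟨⟨y, c⟩, rfl⟩ := e.surjective x
    simp
  · obtain ⟨⟨y, c⟩, rfl⟩ := e.surjective x
    simp

theorem invol [Infinite X] : ∃ θ : Au X, θ ≠ 1 ∧ θ * θ = 1 ∧
    Subgroup.normalClosure ({θ} : Set (Au X)) = ⊤ := by
  obtain ⟨a, a1, a2⟩ := inv_ex X
  refine ⟨permHom a, fun h => ?_, by rw [← map_mul, a1, map_one], ?_⟩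
  · have x : X := Classical.arbitrary X
    exact a2 x (FreeGroup.of_injective (DFunLike.congr_fun h (of x)))
  set N := Subgroup.normalClosure ({permHom a} : Set (Au X))
  have hN : N.Normal := Subgroup.normalClosure_normal
  have n1 : ∀ b : Equiv.Perm X, b * b = 1 → (∀ x, b x ≠ x) → permHom b ∈ N := fun b b1 b2 => by
    obtain ⟨c, rfl⟩ := inv_conj b a b1 b2 a1 a2
    rw [map_mul, map_mul, map_inv]
    exact hN.conj_mem _ (Subgroup.subset_normalClosure rfl) _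
  obtain ⟨Λ, I, _, _, D, _, _, h1, -⟩ := exists_dat
  rw [eq_top_iff]
  rintro φ -
  refine dec D.i0 (Subgroup.pi Set.univ fun _ => N) ?_ (fun _ => φ) 0 trivial
  rintro s ⟨Y, J, _, _, e, ν, _, hs⟩ n -
  obtain ⟨p, p1, p2⟩ := inv_ex Y
  have n2 : ∀ v : Λ, (∀ (n : ℤ) (i : I), v ^ n • i = i → n = 0) →
      permHom (prm e 1 (MulAction.toPerm v)) ∈ N := fun v hv => by
    obtain ⟨b, c, b1, c1, h⟩ := two_inv (MulAction.toPerm v : Equiv.Perm I) fun n i h => hv n i (by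
      have := map_zpow (MulAction.toPermHom Λ I) v n
      exact (DFunLike.congr_fun this i).trans h)
    have pp : ∀ y, p (p y) = y := fun y => DFunLike.congr_fun p1 y
    have key : ∀ b : Equiv.Perm I, b * b = 1 → permHom (prm e p b) ∈ N := fun b b1 =>
      n1 _ (Equiv.ext fun x => by
        obtain ⟨⟨y, i⟩, rfl⟩ := e.surjective x
        have : b (b i) = i := DFunLike.congr_fun b1 i
        simp [pp, this]) fun x => by
        obtain ⟨⟨y, i⟩, rfl⟩ := e.surjective x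
        simp [p2]
    have : prm e 1 (MulAction.toPerm v) = prm e p b * prm e p c := Equiv.ext fun x => by
      obtain ⟨⟨y, i⟩, rfl⟩ := e.surjective x
      simp [h, pp]
    rw [this, map_mul]
    exact mul_mem (key b b1) (key c c1)
  have n3 : ∀ s : ℕ → Au X, (∀ n, (∀ y i, i ≠ D.i0 → s n (of (e (y, i))) = of (e (y, i))) ∧
      (∀ j, Pres (s n) (Lo e ν j)) ∧ ∀ j, Pres (s n) (Hi e ν D.i0 j)) →
      s n * permHom (prm e 1 (MulAction.toPerm (D.ι (of n)))) ∈ N := fun s hs => by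
    obtain ⟨σ, s1, s2⟩ := roomy_ext D e ν s hs
    obtain ⟨u, v, h, hu, hv⟩ := h1 n
    obtain ⟨β, hβ⟩ := s2 u hu
    obtain ⟨γ, hγ⟩ := s2 v hv
    rw [← s1, h, map_mul, hβ, hγ]
    exact mul_mem (hN.conj_mem _ (n2 u hu) _) (hN.conj_mem _ (n2 v hv) _)
  simpa using mul_mem (n3 s hs) (inv_mem (n3 1 fun n =>
    ⟨fun _ _ _ => rfl, fun _ => Maps.one _, fun _ => Maps.one _⟩))

theorem bergman [Infinite X] (ℓ : Au X → ℕ) (l1 : ℓ 1 = 0) (l2 : ∀ a b, ℓ (a * b) ≤ ℓ a + ℓ b)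
    (l3 : ∀ a, ℓ a⁻¹ = ℓ a) : ∃ n, ∀ a, ℓ a ≤ n := by
  obtain ⟨Λ, I, _, _, D, _, _, -, S, hS, h1⟩ := exists_dat
  have hw : ∀ l ∈ Subgroup.closure S, ∃ w, ∀ (σ : Λ →* Au X) L, (∀ s ∈ S, ℓ (σ s) ≤ L) →
      ℓ (σ l) ≤ L * w := by
    intro l hl
    induction hl using Subgroup.closure_induction with
    | mem x hx => exact ⟨1, fun σ L h => by simpa using h x hx⟩
    | one => exact ⟨0, fun σ L _ => by simp [l1]⟩
    | mul x y _ _ hx hy =>
      obtain ⟨a, ha⟩ := hx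
      obtain ⟨b, hb⟩ := hy
      exact ⟨a + b, fun σ L h => by
        rw [map_mul, mul_add]; exact (l2 _ _).trans (add_le_add (ha σ L h) (hb σ L h))⟩
    | inv x _ hx =>
      obtain ⟨a, ha⟩ := hx
      exact ⟨a, fun σ L h => by rw [map_inv, l3]; exact ha σ L h⟩
  choose w hw using fun n => hw _ (h1 n)
  let K : Subgroup (ℕ → Au X) :=
    { carrier := {s | ∃ L, ∀ n, ℓ (s n) ≤ L * w n}
      mul_mem' := fun ⟨a, ha⟩ ⟨b, hb⟩ => ⟨a + b, fun n => by
        rw [add_mul]; exact (l2 _ _).trans (add_le_add (ha n) (hb n))⟩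
      one_mem' := ⟨0, fun n => by simp [l1]⟩
      inv_mem' := fun ⟨a, ha⟩ => ⟨a, fun n => by rw [Pi.inv_apply, l3]; exact ha n⟩ }
  have hK : ∀ s, Roomy I D.i0 s → s ∈ K := by
    rintro s ⟨Y, J, _, _, e, ν, _, hs⟩
    have n3 : ∀ s : ℕ → Au X, (∀ n, (∀ y i, i ≠ D.i0 → s n (of (e (y, i))) = of (e (y, i))) ∧
        (∀ j, Pres (s n) (Lo e ν j)) ∧ ∀ j, Pres (s n) (Hi e ν D.i0 j)) →
        (s * fun n => permHom (prm e 1 (MulAction.toPerm (D.ι (of n))))) ∈ K := fun s hs => by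
      obtain ⟨σ, s1, -⟩ := roomy_ext D e ν s hs
      obtain ⟨L, hL⟩ := (hS.image fun s => ℓ (σ s)).bddAbove
      exact ⟨L, fun n => by
        rw [Pi.mul_apply, ← s1]; exact hw n σ L fun s hs => hL ⟨s, hs, rfl⟩⟩
    simpa using mul_mem (n3 s hs) (inv_mem (n3 1 fun n =>
      ⟨fun _ _ _ => rfl, fun _ => Maps.one _, fun _ => Maps.one _⟩))
  by_contra h
  push Not at h
  choose φ hφ using fun n => h (n * w n)
  obtain ⟨L, hL⟩ := dec D.i0 K hK φ
  exact absurd (hL L) (hφ L).not_ge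

end Pool.Agent.H.MP_0c10a3_al
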